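import Pool.Agent.Lib.MP_4ffbf9_nt.B2.Defs
import Pool.Agent.Lib.MP_4ffbf9_nt.B.Ana

/-! The analytic part. -/

set_option autoImplicit false

namespace Pool.Agent.Lib.MP_4ffbf9_nt.B2

open Finset Real B

namespace Ana2

variable {r G σ h ρ₀ : ℕ} {α₀ : ℝ} {b₀ : ℤ} {α : Option (Fin r) → ℝ} {ρ : Option (Fin r) → ℕ}
  {b : Option (Fin r) → ℤ} {s₀ : ℕ} {s : Option (Fin r) → ℕ}

theorem z_le (H : Hyp2 G h ρ₀ α₀ b₀ α ρ b) (hG : r + 2 ≤ G) (h0 : s₀ < (r + 2) * (σ * G * ρ₀))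
    (hs : ∀ i, s i < (r + 2) * (σ * G * ρ i)) (i : Option (Fin r)) :
    |(b₀ : ℝ) * s i - b i * s₀| ≤ exp (3 * G) * (σ * h) := by
  have a1 : (s i : ℝ) ≤ G * (σ * G * h) := by
    exact_mod_cast (hs i).le.trans (Nat.mul_le_mul hG (Nat.mul_le_mul_left _ (H.rho i).2))
  have a2 : (s₀ : ℝ) ≤ G * (σ * G * h) := by
    exact_mod_cast h0.le.trans (Nat.mul_le_mul hG (Nat.mul_le_mul_left _ H.rho0.2))
  have a3 := H.ble i
  have a5 := H.b0le
  have a4 : 2 * (G : ℝ) ^ 2 ≤ exp (2 * G) := by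
    have := quadratic_le_exp_of_nonneg (x := 2 * (G : ℝ)) (by positivity)
    nlinarith [Nat.cast_nonneg (α := ℝ) G]
  calc |(b₀ : ℝ) * s i - b i * s₀| ≤ |(b₀ : ℝ)| * s i + |(b i : ℝ)| * s₀ := by
        refine (abs_sub _ _).trans_eq ?_
        rw [abs_mul, abs_mul, Nat.abs_cast, Nat.abs_cast]
    _ ≤ exp G * (G * (σ * G * h)) + exp G * (G * (σ * G * h)) := by gcongr
    _ = 2 * G ^ 2 * exp G * (σ * h) := by ring
    _ ≤ exp (2 * G) * exp G * (σ * h) := by gcongr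
    _ = _ := by rw [← exp_add]; congr 2; ring

theorem w_ht (H : Hyp2 G h ρ₀ α₀ b₀ α ρ b) (h0 : s₀ < (r + 2) * (σ * G * ρ₀))
    (hs : ∀ i, s i < (r + 2) * (σ * G * ρ i)) :
    Ht (α₀ ^ s₀ * ∏ i, α i ^ s i) ((r + 2) ^ 2 * (σ * G * h)) := by
  refine ((H.h0.pow s₀).mul (Ana.ht_prod univ fun i => (H.hi i).pow (s i))).mono ?_
  have a2 : (s₀ : ℝ) ≤ (r + 2) * (σ * G * ρ₀) := by exact_mod_cast h0.le
  have a3 : ∀ i, (s i : ℝ) * (h / ρ i) ≤ (r + 2) * (σ * G * h) := fun i => by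
    have a1 : (s i : ℝ) ≤ (r + 2) * (σ * G * ρ i) := by exact_mod_cast (hs i).le
    have a4 : (0 : ℝ) < ρ i := by exact_mod_cast (H.rho i).1
    calc (s i : ℝ) * (h / ρ i) ≤ (r + 2) * (σ * G * ρ i) * (h / ρ i) := by gcongr
      _ = _ := by field_simp
  have a5 := sum_le_card_nsmul univ _ _ fun i _ => a3 i
  rw [card_univ, Fintype.card_option, Fintype.card_fin, nsmul_eq_mul] at a5
  push_cast at a5
  have a4 : (0 : ℝ) < ρ₀ := by exact_mod_cast H.rho0.1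
  have a6 : (s₀ : ℝ) * (h / ρ₀) ≤ (r + 2) * (σ * G * h) :=
    calc (s₀ : ℝ) * (h / ρ₀) ≤ (r + 2) * (σ * G * ρ₀) * (h / ρ₀) := by gcongr
      _ = _ := by field_simp
  nlinarith

theorem log_w (H : Hyp2 G h ρ₀ α₀ b₀ α ρ b) : b₀ * log (α₀ ^ s₀ * ∏ i, α i ^ s i) =
    ∑ i, log (α i) * ((b₀ : ℝ) * s i - b i * s₀) + s₀ * Lam2 α₀ b₀ α b := by
  rw [log_mul (pow_pos H.h0.pos _).ne' (prod_pos fun i _ => pow_pos (H.hi i).pos _).ne',
    log_prod fun i _ => (pow_pos (H.hi i).pos _).ne', log_pow, Lam2, mul_add, mul_add, mul_sum,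
    mul_sum, add_left_comm, ← sum_add_distrib]
  congr 1
  · ring
  · exact sum_congr rfl fun i _ => by rw [log_pow]; ring

theorem T_pos (H : Hyp2 G h ρ₀ α₀ b₀ α ρ b) (hG : 1 ≤ G) (hσ : 1 ≤ σ) (i : Option (Fin r)) :
    1 ≤ Tp G σ h ρ i := by
  have h1 := (H.rho i).1
  have h2 := h1.trans (H.rho i).2
  unfold Tp
  split_ifs <;> exact Nat.succ_le_of_lt (by positivity)

/-- the data of a variable with a small logarithm -/
theorem cheap (H : Hyp2 G h ρ₀ α₀ b₀ α ρ b) (hG : 16 ≤ G) {i : Option (Fin r)} (hi : i ∈ Ch G h ρ) :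
    ∃ η : ℝ, (G : ℝ) ^ 2 ≤ η ∧ η * Tp G σ h ρ i = G ^ 3 * σ * h ∧
      |log (α i)| ≤ G * exp (-η) ∧ (G : ℝ) ^ 3 * (σ * h) = η * Tp G σ h ρ i := by
  obtain ⟨h1, h2⟩ := (mem_filter.1 hi).2
  obtain ⟨j, rfl⟩ := Option.ne_none_iff_exists'.1 h1
  have a4 : (0 : ℝ) < ρ (some j) := by exact_mod_cast (H.rho _).1
  have a5 : (0 : ℝ) < G := by exact_mod_cast (show 0 < G by omega)
  have a6 : (h / (ρ (some j) * G) : ℝ) * Tp G σ h ρ (some j) = G ^ 3 * σ * h := by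
    rw [Tp, if_pos hi]; push_cast; field_simp
  refine ⟨h / (ρ (some j) * G), ?_, a6, H.cheap j, by rw [a6]; ring⟩
  rw [le_div_iff₀ (by positivity)]
  have : (G : ℝ) ^ 3 * ρ (some j) ≤ h := by exact_mod_cast h2
  linarith

theorem bin_le (hE : StEst) (H : Hyp2 G h ρ₀ α₀ b₀ α ρ b) (hG : 16 ≤ G) {z : ℝ}
    (hz : |z| ≤ exp (3 * G) * (σ * h)) {i : Option (Fin r)} {τ : ℕ} (hτ : τ ≤ Tp G σ h ρ i) :
    |bin z τ| ≤ exp (5 * (G ^ 3 * σ * h)) := by
  have g1 : (16 : ℝ) ≤ G := by exact_mod_cast hG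
  have g2 : (0 : ℝ) ≤ σ * h := by positivity
  by_cases hi : i ∈ Ch G h ρ
  · obtain ⟨η, h1, h2, -, h4⟩ := cheap (σ := σ) H hG hi
    set T : ℝ := ((Tp G σ h ρ i : ℕ) : ℝ)
    have hT : 0 ≤ T := Nat.cast_nonneg _
    have h5 : 256 ≤ η := by nlinarith
    have h6 : σ * h ≤ η * T := h4 ▸ le_mul_of_one_le_left g2 (one_le_pow₀ (by linarith))
    have h7 : η * exp (3 * G) ≤ exp (η / 2 - 1) := by
      rw [exp_sub, le_div_iff₀ (exp_pos _), mul_assoc, ← exp_add]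
      exact Ana.key g1 h1
    have h8 : exp (η / 2 - 1) + 1 ≤ exp (η - 1) := by
      have e1 : exp (η - 1) = exp (η / 2 - 1) * exp (η / 2) := by rw [← exp_add]; congr 1; ring
      have e2 := add_one_le_exp (η / 2)
      have e3 := one_le_exp (x := η / 2 - 1) (by linarith)
      nlinarith
    refine (hE.2.1 z (η - 1) τ _ hτ (by linarith) ?_).trans (exp_le_exp.2 ?_)
    · calc |z| + T ≤ exp (3 * G) * (η * T) + T := by
            gcongr
            exact hz.trans (by gcongr)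
        _ = (η * exp (3 * G) + 1) * T := by ring
        _ ≤ _ := by gcongr; linarith
    · rw [sub_add_cancel, h2]
      have : (0 : ℝ) ≤ G ^ 3 * σ * h := by positivity
      linarith
  · have e : (Tp G σ h ρ i : ℝ) = G ^ 2 * (σ * h) := by rw [Tp, if_neg hi]; push_cast; ring
    refine (hE.2.1 z (3 * G + 1) τ _ hτ (by linarith) ?_).trans (exp_le_exp.2 ?_)
    · have h6 : (σ * h : ℝ) ≤ Tp G σ h ρ i :=
        e ▸ le_mul_of_one_le_left g2 (one_le_pow₀ (by linarith))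
      have e2 := add_one_le_exp 1
      have e3 := one_le_exp (x := 3 * (G : ℝ)) (by linarith)
      calc |z| + Tp G σ h ρ i ≤ exp (3 * G) * Tp G σ h ρ i + Tp G σ h ρ i := by
            gcongr
            exact hz.trans (by gcongr)
        _ = (exp (3 * G) + 1) * Tp G σ h ρ i := by ring
        _ ≤ _ := by
            gcongr
            rw [exp_add]
            nlinarith
    · rw [e]
      have : (0 : ℝ) ≤ G ^ 2 * (σ * h) := by positivity
      nlinarith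

theorem cheap_le (hE : StEst) (H : Hyp2 G h ρ₀ α₀ b₀ α ρ b) (hG : 16 ≤ G) {z t : ℝ} {C : ℕ} (hC : 1 ≤ C)
    (hz : |z| ≤ exp (3 * G) * (σ * h)) (ht : |t| ≤ G ^ 2) {i : Option (Fin r)}
    (hi : i ∈ Ch G h ρ) : |t * (log (α i) * z)| ≤ G ^ 3 * σ * h ∧
      |exp (t * (log (α i) * z)) - tex (62 * C * Tp G σ h ρ i) (t * (log (α i) * z))| ≤
        exp (-(30 * (C * (G ^ 3 * σ * h)))) := by
  have g1 : (16 : ℝ) ≤ G := by exact_mod_cast hG
  have c1 : (1 : ℝ) ≤ C := by exact_mod_cast hC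
  obtain ⟨η, h1, h2, h3, h4⟩ := cheap (σ := σ) H hG hi
  set T : ℝ := ((Tp G σ h ρ i : ℕ) : ℝ) with hTe
  set y := t * (log (α i) * z)
  have hT : 0 ≤ T := Nat.cast_nonneg _
  have h5 : 256 ≤ η := by nlinarith
  have h6 : exp 1 * |y| ≤ T * exp (-(η / 2)) := by
    calc exp 1 * |y| ≤ exp 1 * (G ^ 2 * (G * exp (-η) * (exp (3 * G) * (σ * h)))) := by
          simp only [y, abs_mul]
          gcongr
      _ = G ^ 3 * (σ * h) * (exp (3 * G) * exp 1) * exp (-η) := by ring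
      _ = T * (η * exp (3 * G + 1) * exp (-η)) := by rw [h4, exp_add]; ring
      _ ≤ T * (exp (η / 2) * exp (-η)) := by gcongr; exact Ana.key g1 h1
      _ = _ := by rw [← exp_add]; congr 2; ring
  have h7 : |y| ≤ G ^ 3 * σ * h := by
    have e1 := one_le_exp (x := 1) zero_le_one
    have e2 : exp (-(η / 2)) ≤ 1 := exp_le_one_iff.2 (by linarith)
    have e3 : |y| ≤ exp 1 * |y| := le_mul_of_one_le_left (abs_nonneg _) e1
    have e4 : T * exp (-(η / 2)) ≤ T := mul_le_of_le_one_right hT e2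
    have e5 : T ≤ η * T := le_mul_of_one_le_left hT (by linarith)
    linarith
  refine ⟨h7, (hE.2.2.1 y (η / 2) _ (h6.trans ?_)).trans (exp_le_exp.2 ?_)⟩
  · push_cast
    gcongr
    exact le_mul_of_one_le_left hT (by linarith)
  · have e1 : η / 2 * ((62 * C * Tp G σ h ρ i : ℕ) : ℝ) = 31 * (C * (G ^ 3 * σ * h)) := by
      rw [← h2]; push_cast; ring
    have e2 : (G : ℝ) ^ 3 * σ * h ≤ C * (G ^ 3 * σ * h) :=
      le_mul_of_one_le_left (by positivity) c1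
    rw [e1]
    linarith

/-- the approximation at one point -/
theorem approx (hE : StEst) (H : Hyp2 G h ρ₀ α₀ b₀ α ρ b) (hG : 16 ≤ G) (hG' : 32 * (r + 2) ^ 2 ≤ G)
    (hσ : 1 ≤ σ) (hΛ : |Lam2 α₀ b₀ α b| ≤ exp (-(h * (G ^ 4 * σ)))) (h0 : s₀ < (r + 2) * (σ * G * ρ₀))
    (hs : ∀ i, s i < (r + 2) * (σ * G * ρ i)) {t : ℕ} (ht : t < G ^ 2) :
    |(α₀ ^ s₀ * ∏ i, α i ^ s i) ^ t -
      tex (32 * (r + 2) ^ 2 * G * (G ^ 2 * σ * h))
        (t / b₀ * ∑ i ∈ (Ch G h ρ)ᶜ, log (α i) * ((b₀ : ℝ) * s i - b i * s₀)) *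
      ∏ i ∈ Ch G h ρ, tex (62 * (r + 2) ^ 2 * Tp G σ h ρ i)
        (t / b₀ * (log (α i) * ((b₀ : ℝ) * s i - b i * s₀)))| ≤
      exp (-(26 * ((r + 2) ^ 2 * (G ^ 3 * σ * h)))) := by
  have hr : r + 2 ≤ G := by nlinarith
  have hh : 1 ≤ h := (H.rho none).1.trans (H.rho none).2
  have hw := w_ht H h0 hs
  set U : ℝ := G ^ 3 * σ * h with hU
  set V : ℝ := (r + 2) ^ 2 * U with hV
  have U1 : 1 ≤ U := by
    have : 1 ≤ G ^ 3 * σ * h := Nat.succ_le_of_lt (by positivity)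
    rw [hU]; exact_mod_cast this
  have r0 : (0 : ℝ) ≤ r := Nat.cast_nonneg _
  have V1 : (r + 2) * U ≤ V := by rw [hV]; nlinarith [mul_nonneg r0 r0]
  have V2 : r + 2 ≤ V := le_trans (le_mul_of_one_le_right (by linarith) U1) V1
  have t1 : |(t : ℝ)| ≤ G ^ 2 := by rw [Nat.abs_cast]; exact_mod_cast ht.le
  have b1 : (1 : ℝ) ≤ |(b₀ : ℝ)| := by exact_mod_cast Int.one_le_abs H.b0
  have b2 : (b₀ : ℝ) ≠ 0 := by exact_mod_cast H.b0
  have t2 : |(t : ℝ) / b₀| ≤ G ^ 2 := by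
    rw [abs_div]; exact (div_le_self (abs_nonneg _) b1).trans t1
  have hc := fun i (hi : i ∈ Ch G h ρ) =>
    cheap_le hE H hG (C := (r + 2) ^ 2) (Nat.one_le_pow _ _ (by omega)) (z_le H hr h0 hs i) t2 hi
  set y : Option (Fin r) → ℝ := fun i => t / b₀ * (log (α i) * ((b₀ : ℝ) * s i - b i * s₀)) with hy
  set y₀ : ℝ := t / b₀ * ∑ i ∈ (Ch G h ρ)ᶜ, log (α i) * ((b₀ : ℝ) * s i - b i * s₀) with hy₀
  set δ : ℝ := t / b₀ * (s₀ * Lam2 α₀ b₀ α b) with hδ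
  have e1 : t * log (α₀ ^ s₀ * ∏ i, α i ^ s i) = δ + (y₀ + ∑ i ∈ Ch G h ρ, y i) := by
    rw [show t * log (α₀ ^ s₀ * ∏ i, α i ^ s i) =
      t / b₀ * (b₀ * log (α₀ ^ s₀ * ∏ i, α i ^ s i)) by field_simp,
      log_w H, ← sum_compl_add_sum (Ch G h ρ), hδ, hy₀, hy, ← mul_sum]; ring
  have e2 : |t * log (α₀ ^ s₀ * ∏ i, α i ^ s i)| ≤ V := by
    rw [abs_mul]
    refine (mul_le_mul t1 hw.abs_log_le (abs_nonneg _) (by positivity)).trans_eq ?_
    rw [hV, hU]; ring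
  have card : ((Ch G h ρ).card : ℝ) ≤ r + 1 := by
    have := card_le_univ (Ch G h ρ)
    rw [Fintype.card_option, Fintype.card_fin] at this
    exact_mod_cast this
  have d1 : |δ| ≤ exp (-(31 * V)) := by
    have a2 : (s₀ : ℝ) ≤ (r + 2) * (σ * G * h) := by
      exact_mod_cast h0.le.trans (Nat.mul_le_mul_left _ (Nat.mul_le_mul_left _ H.rho0.2))
    have a3 : 32 * ((r : ℝ) + 2) ^ 2 ≤ G := by exact_mod_cast hG'
    calc |δ| ≤ G ^ 2 * ((r + 2) * (σ * G * h) * exp (-(32 * V))) := by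
          rw [hδ, abs_mul, abs_mul, Nat.abs_cast s₀]
          gcongr
          refine hΛ.trans (exp_le_exp.2 (neg_le_neg ?_))
          calc 32 * V = 32 * (r + 2) ^ 2 * U := by rw [hV]; ring
            _ ≤ G * U := by gcongr
            _ = _ := by rw [hU]; ring
      _ = (r + 2) * U * exp (-(32 * V)) := by rw [hU]; ring
      _ ≤ exp V * exp (-(32 * V)) := by
          gcongr
          linarith [add_one_le_exp V]
      _ = _ := by rw [← exp_add]; congr 1; ring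
  have d2 : |δ| ≤ 1 := d1.trans (exp_le_one_iff.2 (by linarith))
  have d3 : |exp δ - 1| ≤ exp (-(30 * V)) := by
    calc |exp δ - 1| ≤ 2 * |δ| := abs_exp_sub_one_le d2
      _ ≤ exp V * exp (-(31 * V)) := by
          gcongr
          linarith [add_one_le_exp V]
      _ = _ := by rw [← exp_add]; congr 1; ring
  have y1 : |y₀| ≤ 2 * V := by
    have a1 : |∑ i ∈ Ch G h ρ, y i| ≤ (r + 1) * U := by
      refine (abs_sum_le_sum_abs _ _).trans ((sum_le_card_nsmul _ _ U fun i hi => (hc i hi).1).trans ?_)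
      rw [nsmul_eq_mul]
      gcongr
    have a2 : y₀ = t * log (α₀ ^ s₀ * ∏ i, α i ^ s i) - δ - ∑ i ∈ Ch G h ρ, y i := by
      rw [e1]; ring
    rw [abs_le] at a1 e2 d2 ⊢
    constructor <;> linarith
  have k0 : ((32 * (r + 2) ^ 2 * G * (G ^ 2 * σ * h) : ℕ) : ℝ) = 32 * V := by
    rw [hV, hU]; push_cast; ring
  have y2 : |exp y₀ - tex (32 * (r + 2) ^ 2 * G * (G ^ 2 * σ * h)) y₀| ≤ exp (-(30 * V)) := by
    refine (hE.2.2.1 y₀ 1 _ ?_).trans (exp_le_exp.2 (by rw [k0]; linarith))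
    rw [k0, exp_neg, ← div_eq_mul_inv, le_div_iff₀ (exp_pos _)]
    have a1 : exp 1 ≤ 3 := exp_one_lt_d9.le.trans (by norm_num)
    calc exp 1 * |y₀| * exp 1 ≤ 3 * (2 * V) * 3 := by gcongr
      _ ≤ _ := by linarith
  have p1 : ∏ _i ∈ Ch G h ρ, exp U ≤ exp V := by
    rw [prod_const, ← exp_nat_mul]
    exact exp_le_exp.2 (by nlinarith)
  have p2 := hE.2.2.2.2 _ (Ch G h ρ) (fun i => exp (y i))
    (fun i => tex (62 * (r + 2) ^ 2 * Tp G σ h ρ i) (y i)) (fun _ => exp U) (exp (-(30 * V)))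
    (exp_pos _).le (fun _ _ => one_le_exp (by linarith))
    (fun i hi => by rw [abs_exp]; exact exp_le_exp.2 ((le_abs_self _).trans (hc i hi).1))
    (fun i hi => (hE.2.2.2.1 _ _).trans (exp_le_exp.2 (hc i hi).1))
    (fun i hi => by have := (hc i hi).2; push_cast at this; exact this)
  have p3 : ∏ i ∈ Ch G h ρ, exp (y i) ≤ exp V :=
    le_trans (prod_le_prod (fun _ _ => (exp_pos _).le) fun i hi =>
      exp_le_exp.2 ((le_abs_self _).trans (hc i hi).1)) p1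
  have p4 : exp y₀ ≤ exp (2 * V) := exp_le_exp.2 ((le_abs_self _).trans y1)
  have p5 := (hE.2.2.2.1 y₀ (32 * (r + 2) ^ 2 * G * (G ^ 2 * σ * h))).trans (exp_le_exp.2 y1)
  have e3 : (α₀ ^ s₀ * ∏ i, α i ^ s i) ^ t = exp δ * (exp y₀ * ∏ i ∈ Ch G h ρ, exp (y i)) := by
    rw [← exp_sum, ← exp_add, ← exp_add, ← e1, exp_nat_mul, exp_log hw.pos]
  rw [e3]
  set A := exp y₀
  set A' := tex (32 * (r + 2) ^ 2 * G * (G ^ 2 * σ * h)) y₀
  set P := ∏ i ∈ Ch G h ρ, exp (y i)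
  set P' := ∏ i ∈ Ch G h ρ, tex (62 * (r + 2) ^ 2 * Tp G σ h ρ i) (y i)
  have A0 : 0 ≤ A := (exp_pos _).le
  have P0 : 0 ≤ P := prod_nonneg fun _ _ => (exp_pos _).le
  have q1 : 1 ≤ exp (2 * V) := one_le_exp (by linarith)
  calc |exp δ * (A * P) - A' * P'| = |(exp δ - 1) * (A * P) + (A - A') * P + A' * (P - P')| := by
        congr 1; ring
    _ ≤ |exp δ - 1| * (A * P) + |A - A'| * P + |A'| * |P - P'| := by
        refine (abs_add_three _ _ _).trans_eq ?_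
        rw [abs_mul, abs_mul, abs_mul, abs_mul, abs_of_nonneg A0, abs_of_nonneg P0]
    _ ≤ exp (-(30 * V)) * (exp (2 * V) * exp V) + exp (-(30 * V)) * (exp (2 * V) * exp V) +
          exp (2 * V) * ((r + 1) * exp (-(30 * V)) * exp V) := by
        gcongr
        · exact p3.trans (le_mul_of_one_le_left (exp_pos _).le q1)
        · exact p2.trans (by gcongr)
    _ = (r + 3) * (exp (-(30 * V)) * exp (2 * V) * exp V) := by ring
    _ ≤ exp V * (exp (-(30 * V)) * exp (2 * V) * exp V) := by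
        gcongr
        linarith [add_one_le_exp V]
    _ = _ := by rw [← exp_add, ← exp_add, ← exp_add]; congr 1; ring

end Ana2

open Ana2 in
theorem stAux2 (hD : StDet) (hL : StLow) (hE : StEst) : StAux2 := by
  intro r
  refine ⟨16 + 32 * (r + 2) ^ 2 + 2 * (62 * (r + 2) ^ 2 + (r + 1) + 2) ^ (r + 1), ?_⟩
  intro G σ h ρ₀ α₀ b₀ α ρ b hG hσ H hΛ
  have G1 : 16 ≤ G := by omega
  have G2 : 32 * (r + 2) ^ 2 ≤ G := by omega
  have G3 : 2 * (62 * (r + 2) ^ 2 + (r + 1) + 2) ^ (r + 1) ≤ G := by omega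
  have hr : r + 2 ≤ G := by nlinarith
  have hh : 1 ≤ h := (H.rho none).1.trans (H.rho none).2
  let Ω := Fin ((r + 2) * (σ * G * ρ₀)) × ∀ i, Fin ((r + 2) * (σ * G * ρ i))
  let R := Fin (G ^ 2) × ∀ i, Fin (Tp G σ h ρ i)
  let z : Option (Fin r) → Ω → ℝ := fun i s => (b₀ : ℝ) * (s.2 i : ℕ) - b i * (s.1 : ℕ)
  let w : Ω → ℝ := fun s => α₀ ^ (s.1 : ℕ) * ∏ i, α i ^ (s.2 i : ℕ)
  let f : R → Ω → ℝ := fun m s => (∏ i, bin (z i s) (m.2 i)) * w s ^ (m.1 : ℕ)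
  by_cases hf : LinearIndependent ℝ f
  swap
  · obtain ⟨p, h1, m, hm⟩ := Fintype.not_linearIndependent_iff.1 hf
    refine ⟨p, fun e => hm (by rw [e]; rfl), fun s₀ s h0 hs => ?_⟩
    have := congrFun h1 (⟨s₀, h0⟩, fun i => ⟨s i, hs i⟩)
    rwa [Finset.sum_apply] at this
  exfalso
  have hT := T_pos H (σ := σ) (by omega) hσ
  have : Nonempty R := ⟨⟨0, by positivity⟩, fun i => ⟨0, hT i⟩⟩
  have hw : ∀ s : Ω, Ht (w s) ((r + 2) ^ 2 * (σ * G * h)) := fun s =>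
    w_ht H s.1.2 fun i => (s.2 i).2
  have hz : ∀ i (s : Ω), |z i s| ≤ exp (3 * G) * (σ * h) := fun i s =>
    z_le H hr s.1.2 (fun i => (s.2 i).2) i
  choose p q hp hq hp' hq' hpq using hw
  obtain ⟨P, hP, hPm⟩ := hL _ Ω z (fun i => log (α i)) (Ch G h ρ) (Tp G σ h ρ)
    (fun i => 62 * (r + 2) ^ 2 * Tp G σ h ρ i) (G ^ 2 * σ * h)
    (32 * (r + 2) ^ 2 * G * (G ^ 2 * σ * h)) (62 * (r + 2) ^ 2) G
    (fun e => (mem_filter.1 (e ▸ mem_univ none : none ∈ Ch G h ρ)).2.1 rfl) hT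
    (fun i hi => if_neg hi) (fun _ _ => le_rfl) (by omega) (by gcongr; norm_num)
  set U : ℝ := G ^ 3 * σ * h with hU
  set V : ℝ := (r + 2) ^ 2 * U with hV
  have U1 : 1 ≤ U := by
    have : 1 ≤ G ^ 3 * σ * h := Nat.succ_le_of_lt (by positivity)
    rw [hU]; exact_mod_cast this
  have r0 : (0 : ℝ) ≤ r := Nat.cast_nonneg _
  have V1 : (r + 2) * U ≤ V := by rw [hV]; nlinarith [mul_nonneg r0 r0]
  have V2 : r + 2 ≤ V := le_trans (le_mul_of_one_le_right (by linarith) U1) V1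
  have cR : Fintype.card R = G ^ 2 * ∏ i, Tp G σ h ρ i := by simp [R]
  have hb : ∀ (m : R) s, |∏ i, bin (z i s) (m.2 i)| ≤ exp (5 * V) := fun m s => by
    rw [abs_prod]
    refine (prod_le_prod (fun _ _ => abs_nonneg _) fun i _ =>
      bin_le hE H G1 (hz i s) (m.2 i).2.le).trans ?_
    rw [prod_const, ← exp_nat_mul, card_univ, Fintype.card_option, Fintype.card_fin]
    push_cast
    exact exp_le_exp.2 (by nlinarith)
  have hq2 : ∀ {x : ℝ} {t : ℕ}, 0 ≤ x → x ≤ exp ((r + 2) ^ 2 * (σ * G * h)) → t ≤ G ^ 2 →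
      x ^ t ≤ exp V := fun {x t} h0 h1 h2 => by
    refine (pow_le_pow_left₀ h0 h1 t).trans ?_
    rw [← exp_nat_mul]
    refine exp_le_exp.2 ?_
    have : (t : ℝ) ≤ G ^ 2 := by exact_mod_cast h2
    calc (t : ℝ) * ((r + 2) ^ 2 * (σ * G * h)) ≤ G ^ 2 * ((r + 2) ^ 2 * (σ * G * h)) := by gcongr
      _ = _ := by rw [hV, hU]; ring
  have main := hD R Ω f (fun s => (q s : ℝ) ^ (G ^ 2)) P (exp V) (exp (6 * V)) (exp (-(21 * V))) hf
    (fun s => ⟨pow_pos (by exact_mod_cast hq s) _, hq2 (Nat.cast_nonneg _) (hq' s) le_rfl⟩)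
    (fun m s => by
      choose n hn using fun i => hE.1 (b₀ * (s.2 i : ℕ) - b i * (s.1 : ℕ)) (m.2 i)
      obtain ⟨c, hc⟩ := Nat.exists_eq_add_of_le m.1.2.le
      have q0 : (q s : ℝ) ≠ 0 := by exact_mod_cast (hq s).ne'
      refine ⟨(∏ i, n i) * ((p s : ℤ) ^ (m.1 : ℕ) * (q s : ℤ) ^ c), ?_⟩
      have e1 : (q s : ℝ) ^ (G ^ 2) = (q s : ℝ) ^ (m.1 : ℕ) * (q s : ℝ) ^ c := by
        rw [← pow_add, ← hc]
      have e2 : ∏ i, bin (z i s) (m.2 i) = ∏ i, (n i : ℝ) := prod_congr rfl fun i _ => by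
        rw [← hn i]; push_cast; rfl
      simp only [f]
      rw [e1, e2, hpq s, div_pow]
      push_cast
      field_simp)
    (one_le_exp (by linarith))
    (fun m s => by
      have w0 : 0 ≤ w s := by rw [hpq s]; positivity
      have w1 : w s ≤ exp ((r + 2) ^ 2 * (σ * G * h)) := by
        rw [hpq s]
        exact (div_le_self (Nat.cast_nonneg _) (by exact_mod_cast hq s)).trans (hp' s)
      simp only [f]
      rw [abs_mul, abs_of_nonneg (pow_nonneg w0 _), show 6 * V = 5 * V + V by ring, exp_add]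
      exact mul_le_mul (hb m s) (hq2 w0 w1 m.1.2.le) (pow_nonneg w0 _) (exp_pos _).le)
    (by
      rw [cR]
      rw [Fintype.card_option, Fintype.card_fin] at hP
      calc 2 * Module.finrank ℝ P
          ≤ 2 * (G * (62 * (r + 2) ^ 2 + (r + 1) + 2) ^ (r + 1) * ∏ i, Tp G σ h ρ i) := by gcongr
        _ = G * (2 * (62 * (r + 2) ^ 2 + (r + 1) + 2) ^ (r + 1)) * ∏ i, Tp G σ h ρ i := by ring
        _ ≤ G * G * ∏ i, Tp G σ h ρ i := by gcongr
        _ = _ := by ring)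
    (exp_pos _).le (exp_le_one_iff.2 (by linarith))
    (fun m => ⟨_, hPm (((m.1 : ℕ) : ℝ) / b₀) (fun i => m.2 i) fun i => (m.2 i).2.le, fun s => by
      simp only [f]
      rw [← mul_sub, abs_mul, show -(21 * V) = 5 * V + -(26 * V) by ring, exp_add]
      exact mul_le_mul (hb m s) (approx hE H G1 G2 hσ hΛ s.1.2 (fun i => (s.2 i).2) m.1.2)
        (abs_nonneg _) (exp_pos _).le⟩)
  have c1 : (Fintype.card R : ℝ) ≤ exp V := by
    have a1 : Fintype.card R ≤ (G ^ 3 * σ * h) ^ (r + 2) := by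
      rw [cR, pow_succ' _ (r + 1)]
      refine Nat.mul_le_mul ?_ ((prod_le_pow_card _ _ _ fun i _ => Ana.T_le (by omega) i).trans_eq ?_)
      · calc G ^ 2 ≤ G ^ 3 * 1 * 1 := by simpa using Nat.pow_le_pow_right (by omega) (by norm_num)
          _ ≤ _ := by gcongr
      · rw [card_univ, Fintype.card_option, Fintype.card_fin]
    calc (Fintype.card R : ℝ) ≤ U ^ (r + 2) := by rw [hU]; exact_mod_cast a1
      _ ≤ exp U ^ (r + 2) := by gcongr; linarith [add_one_le_exp U]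
      _ ≤ _ := by rw [← exp_nat_mul]; push_cast; exact exp_le_exp.2 V1
  have c2 : 4 ≤ exp (2 * V) := by linarith [add_one_le_exp (2 * V)]
  have c3 : (4 * Fintype.card R * exp V * exp (6 * V)) ^ 2 * exp (-(21 * V)) ≤ exp (-V) :=
    calc _ ≤ (exp (2 * V) * exp V * exp V * exp (6 * V)) ^ 2 * exp (-(21 * V)) := by gcongr
      _ = _ := by
        rw [← exp_add, ← exp_add, ← exp_add, ← exp_nat_mul, ← exp_add]; congr 1; push_cast; ring
  exact absurd (main.trans c3) (not_le.2 (exp_lt_one_iff.2 (by linarith)))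

end Pool.Agent.Lib.MP_4ffbf9_nt.B2
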