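import Pool.Agent.Lib.MP_4ffbf9_nt.B2.Defs
import Pool.Agent.Lib.MP_4ffbf9_nt.B.Comb

/-! From few points modulo a subspace to a small relation. -/

set_option autoImplicit false

namespace Pool.Agent.Lib.MP_4ffbf9_nt.B2

open Finset B

namespace Comb2

variable {ι : Type} [Fintype ι] [DecidableEq ι]

/-- the points divided by the first coefficient -/
def GridC {ι : Type} (b : ι → ℂ) (S₀ : ℕ) (S : ι → ℕ) : Set (ι → ℂ) :=
  {x | ∃ (s₀ : ℕ) (s : ι → ℕ), s₀ < S₀ ∧ (∀ i, s i < S i) ∧ x = fun i => (s i : ℂ) - b i * s₀}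

theorem few {ι : Type} {W : Submodule ℂ (ι → ℂ)} {b₀ : ℤ} {b : ι → ℤ} {S₀ N : ℕ} {S : ι → ℕ}
    (h0 : b₀ ≠ 0) (h : Few W (Grid2 b₀ b S₀ S) N) :
    Few W (GridC (fun i => (b i : ℂ) / b₀) S₀ S) N := fun A _ p h1 h2 => by
  have h3 : (b₀ : ℂ) ≠ 0 := Int.cast_ne_zero.2 h0
  refine h A (fun a => (b₀ : ℂ) • p a) (fun a => ?_) fun a a' k =>
    h2 a a' ((W.smul_mem_iff h3).1 (by rwa [smul_sub]))
  obtain ⟨s₀, s, k1, k2, k3⟩ := h1 a
  refine ⟨s₀, s, k1, k2, funext fun i => ?_⟩
  rw [k3, Pi.smul_apply, smul_eq_mul]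
  field_simp

/-- the counting step -/
theorem count {W : Submodule ℂ (ι → ℂ)} {J : Finset ι} {c : ι → ι → ℂ} {b : ι → ℂ} {S₀ N : ℕ}
    {S : ι → ℕ} {k : ι} (h1 : ∀ w ∈ W, ∀ j, ∑ i, w i * c i j = 0)
    (h2 : ∀ i ∈ J, ∀ j, c i j = if j = i then 1 else 0) (hS : ∀ i, 0 < S i)
    (hF : Few W (GridC b S₀ S) (N * ∏ j ∈ J.erase k, S j)) (A : Type) [Fintype A] (s₀ : A → ℕ)
    (s : A → ι → ℕ) (l0 : ∀ a, s₀ a < S₀) (l : ∀ a i, s a i < S i)
    (z : ∀ a, ∀ i ∈ J.erase k, s a i = 0)
    (inj : Function.Injective fun a => ∑ i, ((s a i : ℂ) - b i * s₀ a) * c i k) :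
    Fintype.card A ≤ N := by
  have key := hF (A × Fintype.piFinset fun i => if i ∈ J.erase k then range (S i) else {0})
    (fun x i => ((s x.1 i + x.2.1 i : ℕ) : ℂ) - b i * s₀ x.1) (fun x => ?_) ?_
  · rw [Fintype.card_prod, Fintype.card_coe, Fintype.card_piFinset] at key
    simp only [apply_ite card, card_range, card_singleton, prod_ite_mem, univ_inter] at key
    exact Nat.le_of_mul_le_mul_right key (prod_pos fun i _ => hS i)
  · refine ⟨_, _, l0 x.1, fun i => ?_, rfl⟩
    have := Fintype.mem_piFinset.mp x.2.2 i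
    split_ifs at this with h
    · rw [z _ i h, zero_add]
      exact mem_range.mp this
    · rw [mem_singleton.mp this, add_zero]
      exact l _ i
  · rintro ⟨a, t, ht⟩ ⟨a', t', ht'⟩ h
    have z0 : ∀ i ∉ J.erase k, t i = 0 ∧ t' i = 0 := fun i hi => by
      have a1 := Fintype.mem_piFinset.mp ht i
      have a2 := Fintype.mem_piFinset.mp ht' i
      rw [if_neg hi, mem_singleton] at a1 a2
      exact ⟨a1, a2⟩
    obtain rfl : a = a' := by
      refine inj (sub_eq_zero.mp ?_)
      rw [← h1 _ h k, ← sum_sub_distrib]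
      refine sum_congr rfl fun i _ => ?_
      by_cases hi : i ∈ J.erase k
      · simp [h2 i (mem_of_mem_erase hi), (ne_of_mem_erase hi).symm]
      · simp [z0 i hi, sub_mul]
    obtain rfl : t = t' := funext fun j => by
      by_cases hj : j ∈ J.erase k
      · have := h1 _ h j
        rw [sum_eq_single j (fun i _ n => ?_) (by simp)] at this
        · simpa [h2 j (mem_of_mem_erase hj), sub_eq_zero] using this
        · by_cases hi : i ∈ J.erase k
          · simp [h2 i (mem_of_mem_erase hi), n.symm]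
          · simp [z0 i hi]
      · rw [(z0 j hj).1, (z0 j hj).2]
    rfl

theorem count2 {W : Submodule ℂ (ι → ℂ)} {J : Finset ι} {c : ι → ι → ℂ} {b : ι → ℂ} {S₀ N : ℕ}
    {S : ι → ℕ} {k : ι} (h1 : ∀ w ∈ W, ∀ j, ∑ i, w i * c i j = 0)
    (h2 : ∀ i ∈ J, ∀ j, c i j = if j = i then 1 else 0) (hS : ∀ i, 0 < S i) (hk : k ∈ J)
    (hF : Few W (GridC b S₀ S) (N * ∏ j ∈ J.erase k, S j)) (i : ι) (A : Type) [Fintype A]
    (s₀ a t : A → ℕ) (hi : ∀ x, i ∈ J → a x = 0) (l0 : ∀ x, s₀ x < S₀) (l : ∀ x, a x < S i)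
    (l' : ∀ x, t x < S k) (inj : Function.Injective fun x =>
      (a x : ℂ) * c i k + s₀ x * (-∑ l, b l * c l k) + t x) : Fintype.card A ≤ N := by
  refine count (k := k) h1 h2 hS hF A s₀
    (fun x l => (if l = i then a x else 0) + if l = k then t x else 0) l0 (fun x j => ?_)
    (fun x j hj => ?_) ?_
  · split_ifs with p q q
    · rw [hi x (p ▸ q ▸ hk), zero_add, q]
      exact l' x
    · exact p ▸ l x
    · rw [zero_add, q]
      exact l' x
    · exact hS j
  · rw [if_neg (ne_of_mem_erase hj), add_zero, ite_eq_right_iff]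
    exact fun p => hi x (p ▸ mem_of_mem_erase hj)
  · convert inj using 2 with x
    simp only [Nat.cast_add, Nat.cast_ite, Nat.cast_zero, sub_mul, add_mul, ite_mul, zero_mul,
      sum_sub_distrib, sum_add_distrib, sum_ite_eq', mem_univ, if_true, h2 k hk, mul_neg, mul_sum]
    rw [mul_one, add_right_comm, ← sub_eq_add_neg]
    congr 1
    exact sum_congr rfl fun _ _ => by ring

end Comb2

theorem stComb2 : StComb2 := by
  intro r Q S₀ S₁ S b₀ b W hW hb hQ h0 hS hS1 hF
  replace hF := fun J h => Comb2.few hb (hF J h)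
  have b0 : (b₀ : ℂ) ≠ 0 := Int.cast_ne_zero.2 hb
  obtain ⟨J, c, h1, ⟨k, hk⟩, h2, h3, h4, h5⟩ := Comb.basis W hW none
  have S0 : ∀ i, 0 < S i := fun i => (Nat.zero_le _).trans_lt (hS i)
  have S00 : 0 < S₀ := (Nat.zero_le _).trans_lt h0
  by_cases hn : none ∈ J
  · refine .inl (by_contra fun hd => ?_)
    have c0 : ∀ i, c (some i) none = 0 := fun i => by
      by_cases hi : some i ∈ J
      · simp [h3 _ hi]
      · by_contra n
        simpa using h5 hn _ (h4 _ hi _ hn n)
    have f := hF J h1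
    rw [← mul_prod_erase _ _ hn, if_pos rfl, ← mul_assoc,
      prod_congr rfl fun j hj => if_neg (ne_of_mem_erase hj)] at f
    have := Comb2.count2 h2 h3 S0 hn f none (Fin S₀ × Fin (S none)) (fun x => x.1) (fun _ => 0)
      (fun x => x.2) (fun _ _ => rfl) (fun x => x.1.2) (fun _ => S0 _) (fun x => x.2.2)
      fun x y e => by
        simp only [Fintype.sum_option, c0, h3 _ hn, if_true, mul_zero, sum_const_zero, add_zero,
          mul_one, Nat.cast_zero, zero_add] at e
        have e' : b₀ * (((x.2 : ℕ) : ℤ) - (y.2 : ℕ)) = b none * (((x.1 : ℕ) : ℤ) - (y.1 : ℕ)) := by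
          have : (b₀ : ℂ) * ((((x.2 : ℕ) : ℤ) : ℂ) - ((y.2 : ℕ) : ℤ)) =
              b none * ((((x.1 : ℕ) : ℤ) : ℂ) - ((y.1 : ℕ) : ℤ)) := by
            push_cast
            linear_combination b₀ * e + ((x.1 : ℕ) - (y.1 : ℕ)) * mul_div_cancel₀ (b none : ℂ) b0
          exact_mod_cast this
        by_contra n
        refine hd ⟨_, _, by_contra fun m => n ?_, ?_, ?_, e'⟩
        · rw [not_or, not_not, not_not] at m
          exact Prod.ext (Fin.ext (by omega)) (Fin.ext (by omega))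
        · rw [abs_lt]
          omega
        · rw [abs_lt]
          omega
    simp only [Fintype.card_prod, Fintype.card_fin] at this
    omega
  right
  obtain ⟨k, rfl⟩ : ∃ k', k = some k' := Option.ne_none_iff_exists'.mp fun e => hn (e ▸ hk)
  have n1 : ∀ j ∈ J.erase (some k), (if j = none then S₁ else S j) = S j := fun j hj =>
    if_neg fun e : j = none => hn (e ▸ mem_of_mem_erase hj)
  have f := hF J h1
  rw [← mul_prod_erase _ _ hk, if_neg (Option.some_ne_none k), ← mul_assoc, prod_congr rfl n1] at f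
  obtain ⟨⟨q0, p0, a1, a2, a3⟩, a4, -⟩ := Comb.one (φ := -∑ l, b l / b₀ * c l (some k)) hQ h0
    (S0 (some k)) fun A _ a t ha ht inj => Comb2.count2 h2 h3 S0 hk f none A a (fun _ => 0) t
      (fun _ _ => rfl) ha (fun _ => S0 _) ht (by simpa using inj)
  have o1 := fun i (hi : i ∉ J) => Comb.one (φ := c i (some k)) hQ (hS i) (S0 (some k))
    fun A _ a t ha ht inj => Comb2.count2 h2 h3 S0 hk f i A (fun _ => 0) a t
      (fun _ h => absurd h hi) (fun _ => S00) ha ht (by simpa using inj)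
  have o2 : ∀ i, c (some i) (some k) ≠ 0 →
      S (some i) ≤ Q * S (some k) ∧ S (some k) ≤ Q * S (some i) := fun i n => by
    by_cases hi : some i ∈ J
    · obtain rfl : k = i := by simpa [h3 _ hi] using n
      exact ⟨Nat.le_mul_of_pos_left _ hQ, Nat.le_mul_of_pos_left _ hQ⟩
    refine ⟨(o1 _ hi).2.2 n, ?_⟩
    have f' := hF _ (h4 _ hi _ hk n)
    rw [prod_insert fun h => hi (mem_of_mem_erase h), if_neg (Option.some_ne_none i), ← mul_assoc,
      prod_congr rfl n1] at f'
    simpa using Comb2.count2 h2 h3 S0 hk f' none (Fin (S (some k))) (fun _ => 0) (fun _ => 0)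
      (fun x => x) (fun _ _ => rfl) (fun _ => S00) (fun _ => S0 _) (fun x => x.2)
      fun x y e => Fin.ext (by simpa using e)
  have Q1 : (1 : ℝ) ≤ Q := by exact_mod_cast hQ
  have b1 : ∀ i, ‖c i (some k)‖ * S i ≤ 2 * Q * S (some k) := fun i => by
    by_cases hi : i ∈ J
    · rw [h3 _ hi]
      split_ifs with e
      · rw [norm_one, ← e]
        gcongr
        linarith
      · rw [norm_zero, zero_mul]
        positivity
    · exact (o1 _ hi).2.1
  obtain ⟨q, u, q1, q2, q3⟩ := Comb.den (Q := Q)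
    (fun x : Option (Option (Fin r)) =>
      x.elim (-∑ l, b l / b₀ * c l (some k)) fun i => c i (some k))
    (by
      rintro (_ | i)
      · exact ⟨q0, p0, a1, a2, a3⟩
      by_cases hi : i ∈ J
      · exact ⟨1, if some k = i then 1 else 0, le_rfl, hQ, by simp [h3 _ hi]⟩
      · exact (o1 i hi).1)
  have q4 : (q : ℝ) ≤ Q ^ (r + 2) := by exact_mod_cast (by simpa using q2 : q ≤ Q ^ (r + 2))
  have bd : ∀ x (T : ℕ),
      ‖(x.elim (-∑ l, b l / b₀ * c l (some k)) fun i => c i (some k) : ℂ)‖ * T ≤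
        2 * Q * S (some k) → |u x| * T ≤ 2 * Q ^ (r + 3) * S (some k) := fun x T h => by
    have e := congrArg norm (q3 x)
    rw [norm_mul, Complex.norm_intCast, Complex.norm_natCast] at e
    have : |(u x : ℝ)| * T ≤ 2 * Q ^ (r + 3) * S (some k) := by
      rw [e, mul_assoc]
      exact (mul_le_mul q4 h (by positivity) (by positivity)).trans_eq (by ring)
    exact_mod_cast this
  have nz : ∀ x, u x ≠ 0 →
      (x.elim (-∑ l, b l / b₀ * c l (some k)) fun i => c i (some k) : ℂ) ≠ 0 :=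
    fun x h e => h (Int.cast_eq_zero.mp ((q3 x).trans (by rw [e, mul_zero])))
  refine ⟨k, u none, fun i => u (some i), fun h => ?_, ?_, bd _ _ a4, fun i => bd _ _ (b1 i),
    fun i h => o2 i (nz _ h)⟩
  · have := q3 (some (some k))
    simp only [h, Option.elim, h3 _ hk, if_true, mul_one, Int.cast_zero] at this
    have : q = 0 := by exact_mod_cast this.symm
    omega
  · have : ((u none * b₀ + ∑ i, u (some i) * b i : ℤ) : ℂ) = 0 := by
      push_cast
      simp only [q3, Option.elim, mul_neg, neg_mul, mul_sum, sum_mul]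
      rw [neg_add_eq_zero]
      exact sum_congr rfl fun _ _ => by field_simp
    exact_mod_cast this

end Pool.Agent.Lib.MP_4ffbf9_nt.B2
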