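import Pool.Agent.Lib.MP_4ffbf9_nt.B2.Defs
import Pool.Agent.Lib.MP_4ffbf9_nt.B.Core

/-! The small relation. -/

set_option autoImplicit false

namespace Pool.Agent.Lib.MP_4ffbf9_nt.B2

open Finset B

namespace Core2

theorem shift {r : ℕ} {α₀ : ℝ} {b₀ : ℤ} {α : Option (Fin r) → ℝ} {b : Option (Fin r) → ℤ}
    (h : Lam2 α₀ b₀ α b ≠ 0) : ∃ (t₀ : ℕ) (t : Option (Fin r) → ℕ), t₀ ≤ 1 ∧ (∀ i, t i ≤ 1) ∧
      α₀ ^ t₀ * ∏ i, α i ^ t i ≠ 1 := by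
  by_cases h0 : α₀ = 1
  · exact Core.shift (b := b) (by simpa [Lam, Lam2, h0] using h)
  · exact ⟨1, 0, le_rfl, fun _ => Nat.zero_le _, by simpa using h0⟩

/-- the polynomial without exponentials vanishes on the closed grid -/
theorem pol (hP : StPol) {r G σ h ρ₀ : ℕ} {α₀ : ℝ} {b₀ : ℤ} {α : Option (Fin r) → ℝ}
    {ρ : Option (Fin r) → ℕ} {b : Option (Fin r) → ℤ} (h0 : 0 < α₀) (hi : ∀ i, 0 < α i)
    (hL : Lam2 α₀ b₀ α b ≠ 0) (g0 : G ^ 2 ≤ σ * G * ρ₀) (g1 : ∀ i, G ^ 2 ≤ σ * G * ρ i)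
    {p : Fin (G ^ 2) × (∀ i, Fin (Tp G σ h ρ i)) → ℝ} (hp : p ≠ 0)
    (hV : Van2 G σ h ρ₀ α₀ b₀ α ρ b p) :
    ∃ D : MvPolynomial (Option (Fin r)) ℂ, D ≠ 0 ∧
      D ∈ Box ℂ (MvPolynomial.X : Option (Fin r) → MvPolynomial _ ℂ)
        (fun i => G ^ 2 * Tp G σ h ρ i) ∧
      ∀ (s₀ : ℕ) (s : Option (Fin r) → ℕ), s₀ ≤ (r + 1) * (σ * G * ρ₀) →
        (∀ i, s i ≤ (r + 1) * (σ * G * ρ i)) →
        MvPolynomial.eval (fun i => (b₀ : ℂ) * s i - b i * s₀) D = 0 := by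
  obtain ⟨t₀, t, k0, k1, k2⟩ := shift hL
  have k3 : 0 < α₀ ^ t₀ * ∏ i, α i ^ t i :=
    mul_pos (pow_pos h0 _) (prod_pos fun i _ => pow_pos (hi i) _)
  obtain ⟨D, d0, d1, d2⟩ := hP (Option (Fin r)) (G ^ 2) (Tp G σ h ρ) p
    (fun j i => b₀ * ((j : ℕ) * t i : ℕ) - b i * ((j : ℕ) * t₀ : ℕ))
    (fun j => (α₀ ^ t₀ * ∏ i, α i ^ t i) ^ (j : ℕ)) hp
    ((pow_right_injective₀ k3 k2).comp Fin.val_injective)
  refine ⟨D, d0, d1, fun s₀ s m0 m1 => ?_⟩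
  have := d2 (fun i => (b₀ : ℝ) * s i - b i * s₀) (α₀ ^ s₀ * ∏ i, α i ^ s i)
    (mul_pos (pow_pos h0 _) (prod_pos fun i _ => pow_pos (hi i) _)).ne' fun j => by
      have hj := j.2
      have e := hV (s₀ + j * t₀) (fun i => s i + j * t i)
        (by
          have := Nat.mul_le_mul_left j k0
          rw [show r + 2 = r + 1 + 1 from rfl, Nat.succ_mul]
          omega)
        (fun i => by
          have := Nat.mul_le_mul_left j (k1 i)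
          have := m1 i
          have := g1 i
          rw [show r + 2 = r + 1 + 1 from rfl, Nat.succ_mul]
          omega)
      refine (sum_congr rfl fun m _ => ?_).trans e
      congr 3
      · funext i
        congr 1
        push_cast
        ring
      · simp only [pow_add, prod_mul_distrib, mul_pow, ← prod_pow, ← pow_mul, mul_comm t₀,
          mul_comm (t _)]
        ring
  simpa using this

/-- the zero estimate on the grid -/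
theorem ze {ι : Type} [Fintype ι] {c : ℕ}
    (hZ : ∀ (D : ι → ℕ) (P : MvPolynomial ι ℂ) (T : Set (ι → ℂ))
      (E : ℕ → Set (ι → ℂ)), (∀ i, 1 ≤ D i) → P ≠ 0 →
      P ∈ Box ℂ (MvPolynomial.X : ι → MvPolynomial ι ℂ) D → 0 ∈ T → 0 ∈ E 0 →
      (∀ k, ∀ x ∈ E k, ∀ y ∈ T, x + y ∈ E (k + 1)) →
      (∀ x ∈ E (Fintype.card ι), MvPolynomial.eval x P = 0) →
      ∃ W : Submodule ℂ (ι → ℂ), W ≠ ⊤ ∧ ∀ J : Finset ι, Sp W J → Few W T (c * ∏ j ∈ J, D j))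
    {D : ι → ℕ} {P : MvPolynomial ι ℂ} {b₀ : ℤ} {b : ι → ℤ} {S₀ : ℕ} {S : ι → ℕ}
    (hD : ∀ i, 1 ≤ D i) (h0 : P ≠ 0) (h1 : P ∈ Box ℂ (MvPolynomial.X : ι → MvPolynomial ι ℂ) D)
    (s0 : 0 < S₀) (s1 : ∀ i, 0 < S i)
    (h2 : ∀ (s₀ : ℕ) (s : ι → ℕ), s₀ ≤ Fintype.card ι * S₀ → (∀ i, s i ≤ Fintype.card ι * S i) →
      MvPolynomial.eval (fun i => (b₀ : ℂ) * s i - b i * s₀) P = 0) :
    ∃ W : Submodule ℂ (ι → ℂ), W ≠ ⊤ ∧
      ∀ J : Finset ι, Sp W J → Few W (Grid2 b₀ b S₀ S) (c * ∏ j ∈ J, D j) := by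
  refine hZ D P _ (fun k => {x | ∃ (s₀ : ℕ) (s : ι → ℕ), s₀ ≤ k * S₀ ∧ (∀ i, s i ≤ k * S i) ∧
    x = fun i => (b₀ : ℂ) * s i - b i * s₀}) hD h0 h1 ⟨0, 0, s0, s1, by ext; simp⟩
    ⟨0, 0, Nat.zero_le _, fun _ => Nat.zero_le _, by ext; simp⟩ ?_ ?_
  · rintro k _ ⟨s₀, s, a0, a1, rfl⟩ _ ⟨t₀, t, b0, b1, rfl⟩
    refine ⟨s₀ + t₀, s + t, ?_, fun i => ?_, ?_⟩
    · rw [Nat.succ_mul]
      exact add_le_add a0 b0.le
    · rw [Nat.succ_mul]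
      exact add_le_add (a1 i) (b1 i).le
    · ext i
      simp only [Pi.add_apply, Nat.cast_add]
      ring
  · rintro _ ⟨s₀, s, a0, a1, rfl⟩
    exact h2 s₀ s a0 a1

end Core2

theorem stCore2 (hA : StAux2) (hP : StPol) (hZ : StZE) (hC : StComb2) : StCore2 := by
  intro r
  obtain ⟨a₁, hA⟩ := hA r
  obtain ⟨c, hZ⟩ := hZ (Option (Fin r))
  obtain ⟨a, ha1, ha2, ha4⟩ : ∃ a, a₁ ≤ a ∧ c ≤ a ∧ (6 * r + 7) * (r + 3) + 1 ≤ a :=
    ⟨a₁ + c + ((6 * r + 7) * (r + 3) + 1), by omega, by omega, by omega⟩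
  have ha5 : 6 * r + 12 ≤ a := by nlinarith
  refine ⟨a, fun G h ρ₀ α₀ b₀ α ρ b hG H hL hs => ?_⟩
  have G2 : 1 < G := by omega
  have G1 : 1 ≤ G := G2.le
  have h1 : 1 ≤ h := (H.rho none).1.trans (H.rho none).2
  have r1 : ∀ i, 1 ≤ ρ i := fun i => (H.rho i).1
  have pw : ∀ {m n : ℕ}, m ≤ n → G ^ m ≤ G ^ n := fun e => Nat.pow_le_pow_right G1 e
  obtain ⟨σ, hσ⟩ : ∃ σ, σ = G ^ (6 * r + 8) := ⟨_, rfl⟩
  obtain ⟨Q, hQ⟩ : ∃ Q, Q = G ^ (6 * r + 7) := ⟨_, rfl⟩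
  have σ1 : 1 ≤ σ := hσ ▸ Nat.one_le_pow _ _ G1
  have Q1 : 1 ≤ Q := hQ ▸ Nat.one_le_pow _ _ G1
  have Qσ : Q < σ := hσ ▸ hQ ▸ Nat.pow_lt_pow_right G2 (by omega)
  have σ2 : G ^ 2 ≤ σ := hσ ▸ pw (by omega)
  have e1 : ∀ {x}, 1 ≤ x → σ ≤ σ * G * x := fun e =>
    (Nat.le_mul_of_pos_right _ G1).trans (Nat.le_mul_of_pos_right _ e)
  have Qa : Q ≤ G ^ a := hQ ▸ pw (by omega)
  have σa : σ * G ≤ G ^ a := by
    rw [hσ, ← pow_succ]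
    exact pw (by omega)
  obtain ⟨p, hp, hV⟩ := hA G σ h ρ₀ α₀ b₀ α ρ b (ha1.trans hG) σ1 H (hs.trans (by
    have : G ^ 4 * σ ≤ G ^ a := by
      rw [hσ, ← pow_add]
      exact pw (by omega)
    have : ((G : ℝ) ^ 4 * σ) ≤ G ^ a := by exact_mod_cast this
    gcongr))
  obtain ⟨D, d0, d1, d2⟩ := Core2.pol hP H.h0.pos (fun i => (H.hi i).pos) hL
    (σ2.trans (e1 H.rho0.1)) (fun i => σ2.trans (e1 (r1 i))) hp hV
  obtain ⟨W, w0, w1⟩ := Core2.ze hZ (b₀ := b₀) (b := b) (S₀ := σ * G * ρ₀)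
    (S := fun i => σ * G * ρ i)
    (fun i => by
      have := r1 i
      refine Nat.mul_pos (by positivity) ?_
      unfold Tp
      split_ifs <;> positivity) d0 d1 (σ1.trans (e1 H.rho0.1)) (fun i => σ1.trans (e1 (r1 i)))
    (by simpa only [Fintype.card_option, Fintype.card_fin] using d2)
  have key := hC r Q (σ * G * ρ₀) (σ * h) (fun i => σ * G * ρ i) b₀ b W w0 H.b0 Q1
    (Qσ.trans_le (e1 H.rho0.1)) (fun i => Qσ.trans_le (e1 (r1 i)))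
    ((Nat.mul_lt_mul_of_pos_right (Qσ.trans_le (Nat.le_mul_of_pos_right _ G1))
      (Nat.mul_pos σ1 h1)).trans_le
      ((Nat.mul_le_mul_left _ (Nat.mul_le_mul_left _ H.far)).trans_eq (by ring)))
    fun J hJ A _ q q1 q2 => (w1 J hJ A q q1 q2).trans (by
      refine (Nat.mul_le_mul_left _ (prod_le_prod' fun j _ => Core.deg_le G1 j)).trans ?_
      rw [prod_mul_distrib, prod_const, ← mul_assoc, ← pow_mul]
      refine Nat.mul_le_mul_right _ ?_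
      have : J.card ≤ r + 1 := by simpa using card_le_univ J
      rw [hQ, show 6 * r + 7 = 6 * (r + 1) + 1 by ring, pow_succ']
      exact Nat.mul_le_mul (ha2.trans hG) (pw (by omega)))
  have c0 : ∀ {d : ℤ} {x : ℕ}, d < (σ * G * x : ℕ) → d < (G : ℤ) ^ a * x := fun e =>
    e.trans_le (by exact_mod_cast Nat.mul_le_mul_right _ σa)
  have bd : 2 * (Q : ℤ) ^ (r + 3) ≤ (G ^ a : ℕ) := by
    have : 2 * Q ^ (r + 3) ≤ G ^ a := by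
      refine le_trans ?_ (pw ha4)
      rw [pow_succ' G, pow_mul, ← hQ]
      exact Nat.mul_le_mul_right _ G2
    exact_mod_cast this
  have c1 : ∀ {u : ℤ} {x y : ℕ}, u * (σ * G * x : ℕ) ≤ 2 * (Q : ℤ) ^ (r + 3) * (σ * G * y : ℕ) →
      u * x ≤ (G ^ a : ℕ) * y := fun {u x y} e => by
    rw [Nat.cast_mul _ x, Nat.cast_mul _ y, mul_left_comm u, mul_left_comm (2 * _)] at e
    exact (le_of_mul_le_mul_left e (Nat.cast_pos.2 (Nat.mul_pos σ1 G1))).trans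
      (mul_le_mul_of_nonneg_right bd (Nat.cast_nonneg y))
  have cc : ∀ {x y : ℕ}, σ * G * x ≤ Q * (σ * G * y) → x ≤ G ^ a * y := fun {x y} e => by
    rw [mul_left_comm] at e
    exact (Nat.le_of_mul_le_mul_left e (Nat.mul_pos σ1 G1)).trans (Nat.mul_le_mul_right _ Qa)
  rcases key with ⟨d₀, d₁, u1, u2, u3, u4⟩ | ⟨k, u₀, u, u1, u2, u3, u4, u5⟩
  · exact Or.inl ⟨d₀, d₁, u1, c0 u2, c0 u3, u4⟩
  · exact Or.inr ⟨k, u₀, u, u1, u2, c1 u3, fun i => c1 (u4 i),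
      fun i e => ⟨cc (u5 i e).1, cc (u5 i e).2⟩⟩

end Pool.Agent.Lib.MP_4ffbf9_nt.B2
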