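import Pool.Agent.Lib.MP_4ffbf9_nt.B2.Defs
import Pool.Agent.Lib.MP_4ffbf9_nt.B.Ind

/-! Elimination of one small logarithm. -/

set_option autoImplicit false

namespace Pool.Agent.Lib.MP_4ffbf9_nt.B2

open Finset B B.Ind

namespace Elim

theorem ht_comb {x y E h : ℝ} {p q : ℕ} (hx : Ht x (h / p)) (hy : Ht y (h / q)) (hp : 1 ≤ p)
    (hq : 1 ≤ q) (hh : 0 ≤ h) {m n : ℤ} (hm : |(m : ℝ)| ≤ E) (hn : |(n : ℝ)| * p ≤ E * q) {G : ℝ}
    (hG : 2 ≤ G) : Ht (x ^ m * y ^ (-n)) (E * G * h / p) := by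
  have p0 : (0 : ℝ) < p := by exact_mod_cast hp
  have q0 : (0 : ℝ) < q := by exact_mod_cast hq
  refine ((hx.zpow m).mul (hy.zpow (-n))).mono ?_
  have a1 := mul_le_mul_of_nonneg_right hm hx.nonneg
  have a2 : |(n : ℝ)| * (h / q) ≤ E * (h / p) := by
    rw [← mul_div_assoc, ← mul_div_assoc, div_le_div_iff₀ q0 p0]
    linarith [mul_le_mul_of_nonneg_right hn hh]
  have a3 := mul_le_mul_of_nonneg_right hG (mul_nonneg ((abs_nonneg _).trans hm) hx.nonneg)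
  rw [Int.cast_neg, abs_neg, mul_div_assoc]
  linarith

variable {r G h ρ₀ : ℕ} {α₀ : ℝ} {b₀ : ℤ} {α : Option (Fin (r + 1)) → ℝ}
  {ρ : Option (Fin (r + 1)) → ℕ} {b : Option (Fin (r + 1)) → ℤ}

theorem lam_eq (H : Hyp2 G h ρ₀ α₀ b₀ α ρ b) (k : Fin (r + 1)) (u₀ : ℤ)
    (u : Option (Fin (r + 1)) → ℤ) (hu : u₀ * b₀ + ∑ i, u i * b i = 0) :
    Lam2 (α₀ ^ u (some k) * α (some k) ^ (-u₀)) b₀
      (fun i => α (i.map k.succAbove) ^ u (some k) * α (some k) ^ (-u (i.map k.succAbove)))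
      (fun i => b (i.map k.succAbove)) = u (some k) * Lam2 α₀ b₀ α b := by
  have hu' : (u₀ : ℝ) * b₀ + ∑ i, (u i : ℝ) * b i = 0 := by exact_mod_cast hu
  simp only [Lam2, log_comb H.h0.pos (H.hi _).pos, log_comb (H.hi _).pos (H.hi _).pos,
    Fintype.sum_option, Option.map_none, Option.map_some, Fin.sum_univ_succAbove _ k] at hu' ⊢
  have e : ∑ i : Fin r, (b (some (k.succAbove i)) : ℝ) *
      (u (some k) * Real.log (α (some (k.succAbove i))) -
        u (some (k.succAbove i)) * Real.log (α (some k))) =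
      u (some k) * ∑ i : Fin r, (b (some (k.succAbove i)) : ℝ) *
        Real.log (α (some (k.succAbove i))) -
      (∑ i : Fin r, (u (some (k.succAbove i)) : ℝ) * b (some (k.succAbove i))) *
        Real.log (α (some k)) := by
    rw [mul_sum, sum_mul, ← sum_sub_distrib]
    exact sum_congr rfl fun i _ => by ring
  rw [e]
  linear_combination (-Real.log (α (some k))) * hu'

theorem hyp_step {a : ℕ} (H : Hyp2 G h ρ₀ α₀ b₀ α ρ b) (hG : 2 ≤ G) (k : Fin (r + 1)) (u₀ : ℤ)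
    (u : Option (Fin (r + 1)) → ℤ) (c1 : |(u (some k) : ℝ)| ≤ G ^ a)
    (h0 : |u₀| * ρ₀ ≤ (G ^ a : ℕ) * ρ (some k)) (h1 : ∀ i, |u i| * ρ i ≤ (G ^ a : ℕ) * ρ (some k))
    (h3 : ∀ i, u (some i) ≠ 0 → ρ (some i) ≤ G ^ a * ρ (some k) ∧ ρ (some k) ≤ G ^ a * ρ (some i)) :
    Hyp2 (G ^ (2 * a + 2)) (G ^ (a + 1) * h) ρ₀ (α₀ ^ u (some k) * α (some k) ^ (-u₀)) b₀
      (fun i => α (i.map k.succAbove) ^ u (some k) * α (some k) ^ (-u (i.map k.succAbove)))
      (fun i => ρ (i.map k.succAbove)) (fun i => b (i.map k.succAbove)) := by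
  have hG0 : 0 < G := by omega
  have hGG : (G : ℝ) ≤ (G ^ (2 * a + 2) : ℕ) := by exact_mod_cast Nat.le_self_pow (by omega) G
  obtain ⟨E, hE⟩ : ∃ E : ℝ, E = (G : ℝ) ^ a := ⟨_, rfl⟩
  have g2 : (2 : ℝ) ≤ G := by exact_mod_cast hG
  have hE1 : 1 ≤ E := by rw [hE]; exact one_le_pow₀ (by linarith)
  have e1 : ((G ^ (2 * a + 2) : ℕ) : ℝ) = E ^ 2 * G ^ 2 := by rw [hE]; push_cast; ring
  have e2 : ((G ^ (a + 1) * h : ℕ) : ℝ) = E * G * h := by rw [hE]; push_cast; ring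
  have c0 : |(u₀ : ℝ)| * ρ₀ ≤ E * ρ (some k) := by rw [hE]; exact_mod_cast h0
  have c2 : ∀ i, |(u i : ℝ)| * ρ i ≤ E * ρ (some k) := fun i => by rw [hE]; exact_mod_cast h1 i
  rw [← hE] at c1
  have r0 : ∀ i, (0 : ℝ) < ρ i := fun i => by exact_mod_cast (H.rho i).1
  have hh : (0 : ℝ) ≤ h := Nat.cast_nonneg h
  have hl : h ≤ G ^ (a + 1) * h := Nat.le_mul_of_pos_left _ (pow_pos hG0 _)
  refine ⟨e2 ▸ ht_comb H.h0 (H.hi _) H.rho0.1 (H.rho _).1 hh c1 c0 g2,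
    fun i => e2 ▸ ht_comb (H.hi _) (H.hi _) (H.rho _).1 (H.rho _).1 hh c1 (c2 _) g2,
    ⟨H.rho0.1, H.rho0.2.trans hl⟩, fun i => ⟨(H.rho _).1, (H.rho _).2.trans hl⟩, ?_, fun i => ?_,
    H.b0, H.b0le.trans (Real.exp_le_exp.2 hGG), fun i => (H.ble _).trans (Real.exp_le_exp.2 hGG)⟩
  · refine (Nat.mul_le_mul_left _ H.far).trans ?_
    rw [← mul_assoc, ← pow_succ]
    exact Nat.mul_le_mul_right _ (Nat.pow_le_pow_right hG0 (by omega))
  · simp only [Option.map_some]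
    rw [log_comb (H.hi _).pos (H.hi _).pos, e1, e2]
    obtain ⟨j, hj⟩ : ∃ j, j = k.succAbove i := ⟨_, rfl⟩
    rw [← hj]
    have g0 : (0 : ℝ) < G := by linarith
    have e3 : E * G * h / (ρ (some j) * (E ^ 2 * G ^ 2)) = h / (E * ρ (some j) * G) := by
      have := r0 (some j)
      field_simp
    rw [e3]
    have key : ∀ i', (ρ (some i') : ℝ) ≤ E * ρ (some j) → |Real.log (α (some i'))| ≤
        G * Real.exp (-(h / (E * ρ (some j) * G))) := fun i' hi' =>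
      (H.cheap i').trans (mul_le_mul_of_nonneg_left (Real.exp_le_exp.2 (neg_le_neg
        (div_le_div_of_nonneg_left hh (mul_pos (r0 _) g0)
          (mul_le_mul_of_nonneg_right hi' g0.le)))) g0.le)
    obtain ⟨X, hX⟩ : ∃ X, X = Real.exp (-(h / (E * ρ (some j) * G))) := ⟨_, rfl⟩
    rw [← hX] at key ⊢
    have hX0 : 0 ≤ X := by rw [hX]; positivity
    have b1 : |(u (some k) : ℝ) * Real.log (α (some j))| ≤ E ^ 2 * (G * X) := by
      rw [abs_mul]
      exact mul_le_mul (c1.trans (by nlinarith)) (key j (le_mul_of_one_le_left (r0 _).le hE1))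
        (abs_nonneg _) (by positivity)
    have b2 : |(u (some j) : ℝ) * Real.log (α (some k))| ≤ E ^ 2 * (G * X) := by
      by_cases hn : u (some j) = 0
      · rw [hn, Int.cast_zero, zero_mul, abs_zero]
        positivity
      · have a1 : (ρ (some k) : ℝ) ≤ E * ρ (some j) := by rw [hE]; exact_mod_cast (h3 _ hn).2
        rw [abs_mul]
        refine mul_le_mul (le_of_mul_le_mul_right ((c2 _).trans ?_) (r0 (some j))) (key k a1)
          (abs_nonneg _) (by positivity)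
        linarith [mul_le_mul_of_nonneg_left a1 (zero_le_one.trans hE1)]
    have b3 := mul_le_mul_of_nonneg_right g2 (show 0 ≤ E ^ 2 * (G * X) by positivity)
    linarith [abs_sub ((u (some k) : ℝ) * Real.log (α (some j)))
      ((u (some j) : ℝ) * Real.log (α (some k)))]

end Elim

theorem stElim : StElim := by
  rintro r ⟨c, ih⟩ a
  obtain ⟨m, hm⟩ : ∃ m, m = a + 1 + (2 * a + 2) * c := ⟨_, rfl⟩
  refine ⟨m + 1 + c, fun G h ρ₀ α₀ b₀ α ρ b h1 h2 h4 ⟨k, u₀, u, a1, a4, a2, a3, a6⟩ => ?_⟩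
  by_contra h5
  have h6 := not_lt.1 h5
  have hG : 2 ≤ G := by omega
  have g1 : (1 : ℝ) ≤ G := by exact_mod_cast (by omega : 1 ≤ G)
  have g2 : (2 : ℝ) ≤ G := by exact_mod_cast hG
  have hh : (1 : ℝ) ≤ h := by exact_mod_cast (h2.rho none).1.trans (h2.rho none).2
  have c1 : |(u (some k) : ℝ)| ≤ G ^ a := by
    exact_mod_cast le_of_mul_le_mul_right (a3 (some k)) (by exact_mod_cast (h2.rho _).1)
  have hL := Elim.lam_eq h2 k u₀ u a4
  have b1 := ih _ _ _ _ _ _ _ _ (le_trans (by omega) (Nat.le_self_pow (by omega) G))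
    (Elim.hyp_step h2 hG k u₀ u c1 a2 a3 a6)
    (by rw [hL]; exact mul_ne_zero (by exact_mod_cast a1) h4)
  have e : ((G ^ (a + 1) * h : ℕ) : ℝ) * ((G ^ (2 * a + 2) : ℕ) : ℝ) ^ c = h * G ^ m := by
    rw [hm]; push_cast; ring
  rw [hL, e, abs_mul] at b1
  have b2 : |(u (some k) : ℝ)| ≤ Real.exp (G ^ m) := by
    have c2 : (G : ℝ) ^ a ≤ G ^ m := pow_le_pow_right₀ g1 (by omega)
    linarith [Real.add_one_le_exp ((G : ℝ) ^ m)]
  have b3 := b1.trans_le (mul_le_mul b2 h6 (abs_nonneg _) (Real.exp_pos _).le)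
  rw [← Real.exp_add, Real.exp_lt_exp] at b3
  have b4 : (G : ℝ) ^ m * 2 ≤ G ^ (m + 1 + c) :=
    le_trans (by rw [pow_succ]; gcongr) (pow_le_pow_right₀ g1 (Nat.le_add_right _ c))
  have b5 := mul_le_mul_of_nonneg_left b4 (show (0 : ℝ) ≤ h by linarith)
  have b6 := mul_le_mul_of_nonneg_right hh (show (0 : ℝ) ≤ G ^ m by positivity)
  linarith

end Pool.Agent.Lib.MP_4ffbf9_nt.B2
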