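import Pool.Agent.Lib.MP_4ffbf9_nt.B2.Defs
import Pool.Agent.Lib.MP_4ffbf9_nt.B.Gap

/-! The gap between two products. -/

set_option autoImplicit false

namespace Pool.Agent.Lib.MP_4ffbf9_nt.B2

open Finset B

namespace Gp2

/-- The product is a `g`-th power up to a power of `z` and ratios of the factors. -/
theorem dec {R g z : ℕ} {w c : Fin R → ℕ} (hg : 0 < g) (hz : 0 < z) (hw : ∀ i, z ≤ w i)
    (hd : ¬ g ∣ ∑ i, c i) :
    ∃ V n : ℕ, 0 < V ∧ 0 < n ∧ n < g ∧ 1 ≤ ∏ i, w i ^ c i ∧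
      Real.log ((∏ i, w i ^ c i : ℕ) : ℝ) =
        g * Real.log V + n * Real.log z + ∑ i, ((c i % g : ℕ) : ℝ) * Real.log ((w i : ℝ) / z) ∧
      g * Real.log V ≤ Real.log ((∏ i, w i ^ c i : ℕ) : ℝ) := by
  have hv0 : ∀ i, 0 < w i := fun i => hz.trans_le (hw i)
  have hx' : (0 : ℝ) < z := by exact_mod_cast hz
  have hv' : ∀ i, (0 : ℝ) < w i := fun i => by exact_mod_cast hv0 i
  have hlx : 0 ≤ Real.log z := Real.log_natCast_nonneg z
  have hle : ∀ i, Real.log z ≤ Real.log (w i) := fun i =>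
    Real.log_le_log hx' (by exact_mod_cast hw i)
  have hX : Real.log ((∏ i, w i ^ c i : ℕ) : ℝ) = ∑ i, (c i : ℝ) * Real.log (w i) := by
    push_cast
    rw [Real.log_prod (fun i _ => (pow_pos (hv' i) _).ne')]
    exact sum_congr rfl fun i _ => Real.log_pow _ _
  obtain ⟨k, n, hn0, hn, hk⟩ : ∃ k n : ℕ, 0 < n ∧ n < g ∧
      (∑ i, ((c i % g : ℕ) : ℝ)) = g * k + n := by
    refine ⟨(∑ i, c i % g) / g, (∑ i, c i % g) % g, ?_, Nat.mod_lt _ hg, ?_⟩
    · rw [← Finset.sum_nat_mod]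
      exact Nat.pos_of_ne_zero fun h => hd (Nat.dvd_of_mod_eq_zero h)
    · exact_mod_cast (Nat.div_add_mod _ _).symm
  have hU : Real.log ((z ^ k * ∏ i, w i ^ (c i / g) : ℕ) : ℝ) =
      k * Real.log z + ∑ i, ((c i / g : ℕ) : ℝ) * Real.log (w i) := by
    rw [Nat.cast_mul, Nat.cast_pow, Nat.cast_prod,
      Real.log_mul (pow_pos hx' _).ne' (prod_ne_zero_iff.mpr fun i _ => by
        exact_mod_cast (pow_pos (hv0 i) _).ne'), Real.log_pow,
      Real.log_prod (fun i _ => by exact_mod_cast (pow_pos (hv0 i) _).ne')]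
    congr 1
    exact sum_congr rfl fun i _ => by rw [Nat.cast_pow, Real.log_pow]
  have hE : Real.log ((∏ i, w i ^ c i : ℕ) : ℝ) =
      g * Real.log ((z ^ k * ∏ i, w i ^ (c i / g) : ℕ) : ℝ) + n * Real.log z +
        ∑ i, ((c i % g : ℕ) : ℝ) * Real.log ((w i : ℝ) / z) := by
    have e1 : ∑ i, ((c i % g : ℕ) : ℝ) * Real.log ((w i : ℝ) / z) =
        ∑ i, ((c i % g : ℕ) : ℝ) * Real.log (w i) - (∑ i, ((c i % g : ℕ) : ℝ)) * Real.log z := by
      rw [sum_mul, ← sum_sub_distrib]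
      exact sum_congr rfl fun i _ => by rw [Real.log_div (hv' i).ne' hx'.ne', mul_sub]
    have e2 : ∑ i, (c i : ℝ) * Real.log (w i) = g * ∑ i, ((c i / g : ℕ) : ℝ) * Real.log (w i) +
        ∑ i, ((c i % g : ℕ) : ℝ) * Real.log (w i) := by
      rw [mul_sum, ← sum_add_distrib]
      refine sum_congr rfl fun i _ => ?_
      have : (c i : ℝ) = g * ((c i / g : ℕ) : ℝ) + ((c i % g : ℕ) : ℝ) := by
        exact_mod_cast (Nat.div_add_mod _ _).symm
      rw [← mul_assoc, ← add_mul, ← this]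
    rw [hX, hU, e1, e2, hk]
    ring
  refine ⟨z ^ k * ∏ i, w i ^ (c i / g), n, Nat.mul_pos (pow_pos hz _) (prod_pos fun i _ =>
    pow_pos (hv0 i) _), hn0, hn, prod_pos fun i _ => pow_pos (hv0 i) _, hE, ?_⟩
  rw [hE, add_assoc]
  refine le_add_of_nonneg_right (add_nonneg (mul_nonneg (Nat.cast_nonneg _) hlx)
    (sum_nonneg fun i _ => mul_nonneg (Nat.cast_nonneg _) ?_))
  rw [Real.log_div (hv' i).ne' hx'.ne']
  exact sub_nonneg.mpr (hle i)

/-- A ratio of small height has a small logarithm. -/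
theorem ratio {l : ℝ} {A C h G : ℕ} (hA : 0 < A) (hC : 0 < C) (hl : 1 ≤ l)
    (hAl : (A : ℝ) ≤ Real.exp l) (hCl : (C : ℝ) ≤ Real.exp l) (hh : l ≤ h) (hG : 3 * l ≤ G) :
    ∃ ρ : ℕ, Ht ((A : ℝ) / C) (h / ρ) ∧ (1 ≤ ρ ∧ ρ ≤ h) ∧
      |Real.log ((A : ℝ) / C)| ≤ G * Real.exp (-(h / (ρ * G))) := by
  have hA' : (0 : ℝ) < A := by exact_mod_cast hA
  have hC' : (0 : ℝ) < C := by exact_mod_cast hC
  have h1 : 1 ≤ (h : ℝ) / l := (one_le_div (by linarith)).mpr hh
  have hh0 : (0 : ℝ) ≤ h := Nat.cast_nonneg _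
  refine ⟨⌊(h : ℝ) / l⌋₊, ?_⟩
  set ρ := ⌊(h : ℝ) / l⌋₊ with hρ
  have r1 : 1 ≤ ρ := Nat.le_floor (by exact_mod_cast h1)
  have r1' : (1 : ℝ) ≤ ρ := by exact_mod_cast r1
  have r2 : (ρ : ℝ) ≤ h / l := Nat.floor_le (by linarith)
  have r3 : (h : ℝ) / l < ρ + 1 := Nat.lt_floor_add_one _
  have r4 : l ≤ h / ρ := by
    rw [le_div_iff₀ (by linarith)]
    rw [le_div_iff₀ (by linarith)] at r2
    linarith
  have r5 : (h : ℝ) / ρ ≤ 2 * l := by
    rw [div_le_iff₀ (by linarith)]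
    rw [div_lt_iff₀ (by linarith)] at r3
    nlinarith
  have r6 := Real.exp_le_exp.mpr r4
  refine ⟨⟨A, C, hA, hC, hAl.trans r6, hCl.trans r6, rfl⟩, ⟨r1, ?_⟩, ?_⟩
  · exact_mod_cast r2.trans (div_le_self hh0 hl)
  · have hG0 : (0 : ℝ) < G := by linarith
    have l1 : Real.log A ≤ l := (Real.log_le_iff_le_exp hA').mpr hAl
    have l2 : Real.log C ≤ l := (Real.log_le_iff_le_exp hC').mpr hCl
    have l3 : 0 ≤ Real.log A := Real.log_natCast_nonneg A
    have l4 : 0 ≤ Real.log C := Real.log_natCast_nonneg C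
    have l5 : (h : ℝ) / (ρ * G) ≤ 1 := by
      rw [← div_div, div_le_one hG0]
      linarith
    have l6 : Real.exp (-1) ≤ Real.exp (-(h / (ρ * G))) := Real.exp_le_exp.mpr (by linarith)
    have l7 := Real.exp_neg_one_gt_d9
    have l8 : (G : ℝ) * (1 / 3) ≤ G * Real.exp (-(h / (ρ * G))) :=
      mul_le_mul_of_nonneg_left (by linarith) hG0.le
    rw [Real.log_div hA'.ne' hC'.ne']
    exact abs_le.mpr ⟨by linarith, by linarith⟩

end Gp2

theorem stGap2 (hB : ∀ r, Bd r) : StGap2 := by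
  intro R M θ hθ
  obtain ⟨e, he⟩ := hB (R + R + 1)
  obtain ⟨cM, hc⟩ : ∃ c : ℝ, c = 1 + Real.log (1 + |M|) := ⟨_, rfl⟩
  have hM := abs_nonneg M
  have hc1 : 1 ≤ cM := by linarith [Real.log_nonneg (by linarith : 1 ≤ 1 + |M|)]
  have hθ' : 0 < 1 - θ := by linarith
  obtain ⟨K, hK⟩ := exists_nat_ge (e + 2 / (1 - θ) + 2 * cM + 3 * |M|)
  have hq : 0 ≤ 2 / (1 - θ) := by positivity
  have he0 : (0 : ℝ) ≤ e := Nat.cast_nonneg _
  obtain ⟨D, hD⟩ : ∃ D : ℝ, D = (cM + 3) * (2 * (cM + 1)) := ⟨_, rfl⟩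
  have hD0 : 0 ≤ D := by rw [hD]; positivity
  obtain ⟨κ, hκ⟩ := exists_nat_ge (D * ((K : ℝ) + 6) ^ e + 2 + (e + 1))
  have hKe : (1 : ℝ) ≤ ((K : ℝ) + 6) ^ e := one_le_pow₀ (by linarith)
  have hκ1 : e + 1 ≤ κ := by
    have : ((e + 1 : ℕ) : ℝ) ≤ κ := by
      have := mul_nonneg hD0 (by linarith : 0 ≤ ((K : ℝ) + 6) ^ e)
      push_cast
      linarith
    exact_mod_cast this
  refine ⟨κ, fun A C g x z X Z v a w c hA hC hg px hz pz hd hX hZ hne => ?_⟩
  obtain ⟨U, hU, hX1, eX, hUX, hxX⟩ := Gp.dec px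
  obtain ⟨V, n, hV, hn0, hn, hZ1, eZ, hVZ⟩ := Gp2.dec (by omega) hz (fun i => (pz i).1) hd
  rw [← hX] at hX1 eX hUX hxX
  rw [← hZ] at hZ1 eZ hVZ
  have hA' : (1 : ℝ) ≤ A := by exact_mod_cast hA
  have hC' : (1 : ℝ) ≤ C := by exact_mod_cast hC
  have hg' : (3 : ℝ) ≤ g := by exact_mod_cast hg
  have hX' : (1 : ℝ) ≤ X := by exact_mod_cast hX1
  have hZ' : (1 : ℝ) ≤ Z := by exact_mod_cast hZ1
  have hz' : (1 : ℝ) ≤ z := by exact_mod_cast hz
  have hAC : (1 : ℝ) ≤ A * C := one_le_mul_of_one_le_of_one_le hA' hC'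
  have hP : (g : ℝ) ≤ g * A * C ∧ (A : ℝ) ≤ g * A * C ∧ 2 * (C : ℝ) ≤ g * A * C := by
    have k1 := mul_le_mul_of_nonneg_left hAC (by linarith : (0 : ℝ) ≤ g)
    have k2 := mul_le_mul_of_nonneg_left
      (one_le_mul_of_one_le_of_one_le (by linarith : (1 : ℝ) ≤ g) hC') (by linarith : (0 : ℝ) ≤ A)
    have k3 := mul_le_mul_of_nonneg_left hA' (by linarith : (0 : ℝ) ≤ g)
    exact ⟨by linarith, by linarith, mul_le_mul_of_nonneg_right (by linarith) (by linarith)⟩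
  set l := Real.log ((g : ℝ) * A * C) with hl
  have hel : Real.exp l = g * A * C := Real.exp_log (by linarith [hP.1])
  have hl1 : 1 ≤ l := by
    rw [hl, Real.le_log_iff_exp_le (by linarith [hP.1])]
    linarith [Real.exp_one_lt_d9, hP.1]
  have hlZ : 0 ≤ Real.log Z := Real.log_natCast_nonneg Z
  have hlz : 0 ≤ Real.log z := Real.log_natCast_nonneg z
  have hs : 0 ≤ Real.log Z / g := by positivity
  have hL2 : Real.log (2 * (z : ℝ)) = Real.log 2 + Real.log z :=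
    Real.log_mul (by norm_num) (by linarith)
  have hlog2 := Real.log_two_gt_d9
  set L := Real.log (2 * (z : ℝ)) with hLd
  have hL1 : 1 ≤ 2 * L := by linarith
  set G := 3 * ⌈l⌉₊ + K with hG
  have hG1 : 3 * l + K ≤ G := by
    rw [hG]
    push_cast
    linarith [Nat.le_ceil l]
  have hK0 : (0 : ℝ) ≤ K := Nat.cast_nonneg _
  have hG2 : (G : ℝ) ≤ (K + 6) * l := by
    rw [hG]
    push_cast
    linarith [Nat.ceil_lt_add_one (by linarith : 0 ≤ l), mul_le_mul_of_nonneg_left hl1 hK0]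
  have hG3 : (G : ℝ) ^ e ≤ (K + 6) ^ e * l ^ e := by
    rw [← mul_pow]
    exact pow_le_pow_left₀ (Nat.cast_nonneg _) hG2 e
  have hlk : l ^ (e + 1) ≤ l ^ κ := pow_le_pow_right₀ hl1 hκ1
  have hle : 1 ≤ l ^ e := one_le_pow₀ hl1
  have hmain : D * l * (G : ℝ) ^ e + 2 ≤ κ * l ^ κ := by
    have k1 := mul_le_mul_of_nonneg_left hG3 (by positivity : 0 ≤ D * l)
    have k2 : 1 ≤ l ^ (e + 1) := one_le_pow₀ hl1
    have k3 : (D * ((K : ℝ) + 6) ^ e + 2) * l ^ (e + 1) ≤ κ * l ^ κ :=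
      mul_le_mul (by linarith) hlk (by linarith) (Nat.cast_nonneg _)
    rw [pow_succ] at k2 k3
    linarith
  have hGe : (0 : ℝ) ≤ (G : ℝ) ^ e := by positivity
  have hcl : 1 ≤ (cM + 3) * l := one_le_mul_of_one_le_of_one_le (by linarith) hl1
  have hDG : 0 ≤ D * l * (G : ℝ) ^ e := by positivity
  have hsL : 1 ≤ (1 + Real.log Z / g) * (2 * L) := one_le_mul_of_one_le_of_one_le (by linarith) hL1
  have hsL0 : 0 ≤ (1 + Real.log Z / g) * L := by linarith
  have hfin := mul_le_mul_of_nonneg_right hmain hsL0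
  by_cases t1 : (C : ℝ) * Z / 2 ≤ |(A : ℝ) * X - C * Z|
  · refine le_trans ?_ t1
    have k0 := mul_nonneg hDG hsL0
    have k1 : Real.exp (-(κ * l ^ κ * (1 + Real.log Z / g) * L)) ≤ Real.exp (-1) :=
      Real.exp_le_exp.mpr (neg_le_neg (by linarith))
    have k2 := Real.exp_neg_one_lt_d9
    have k3 := mul_le_mul_of_nonneg_left (k1.trans (by linarith : Real.exp (-1) ≤ 1 / 2))
      (by linarith : (0 : ℝ) ≤ Z)
    linarith [mul_le_mul_of_nonneg_right hC' (by linarith : (0 : ℝ) ≤ Z)]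
  rw [not_le] at t1
  have hCZ : (0 : ℝ) < C * Z := by positivity
  have hXZ : Real.log X ≤ Real.log Z + l := by
    have k1 : (X : ℝ) ≤ Z * (g * A * C) := by
      have k2 := (abs_lt.mp t1).2
      linarith [mul_le_mul_of_nonneg_left hP.2.2 (by linarith : (0 : ℝ) ≤ Z),
        mul_le_mul_of_nonneg_right hA' (by linarith : (0 : ℝ) ≤ X)]
    rw [hl, ← Real.log_mul (by linarith) (by linarith [hP.1])]
    exact Real.log_le_log (by linarith) k1
  have hg0 : (0 : ℝ) < g := by linarith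
  obtain ⟨p, hdiv, hp2⟩ : ∃ p : ℕ, (∀ y : ℝ, g * y ≤ Real.log Z + l → cM + l + y ≤ p) ∧
      (p : ℝ) ≤ (cM + 3) * l * (1 + Real.log Z / g) := by
    refine ⟨⌈cM + l + (Real.log Z + l) / g⌉₊, fun y hy =>
      le_trans (add_le_add_right ((le_div_iff₀' hg0).mpr hy) _) (Nat.le_ceil _), ?_⟩
    have k1 := Nat.ceil_lt_add_one (by positivity : 0 ≤ cM + l + (Real.log Z + l) / g)
    have k2 : l / g ≤ l := div_le_self (by linarith) (by linarith)
    have k3 := mul_le_mul_of_nonneg_right hcl hs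
    have k4 : (Real.log Z + l) / g = Real.log Z / g + l / g := add_div _ _ _
    linarith [mul_le_mul_of_nonneg_left hl1 (by linarith : 0 ≤ cM + 1)]
  obtain ⟨η, hη1, hη2⟩ : ∃ η : ℕ, cM + Real.log z ≤ η ∧ (η : ℝ) ≤ 2 * (cM + 1) * L := by
    refine ⟨⌈cM + Real.log z⌉₊, Nat.le_ceil _, ?_⟩
    have k1 := Nat.ceil_lt_add_one (by linarith : 0 ≤ cM + Real.log z)
    have k2 := mul_le_mul_of_nonneg_left (by linarith : 1 ≤ 2 * Real.log 2)
      (by linarith : 0 ≤ cM + 1)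
    have k3 := mul_le_mul_of_nonneg_right (by linarith : 1 ≤ 2 * (cM + 1)) hlz
    rw [hL2]
    linarith
  have hp0 := hdiv 0 (by linarith)
  have hp1 : (1 : ℝ) ≤ p := by linarith
  have hη0 : (1 : ℝ) ≤ η := by linarith
  have hp1' : 1 ≤ p := by exact_mod_cast hp1
  have hη0' : 1 ≤ η := by exact_mod_cast hη0
  obtain ⟨h, hh⟩ : ∃ h : ℕ, h = p * η := ⟨_, rfl⟩
  have hh' : (h : ℝ) = p * η := by exact_mod_cast hh
  have hph : p ≤ h := hh ▸ Nat.le_mul_of_pos_right p hη0'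
  have hηh : η ≤ h := hh ▸ Nat.le_mul_of_pos_left η hp1'
  have hph' : (p : ℝ) ≤ h := by exact_mod_cast hph
  have hηh' : (η : ℝ) ≤ h := by exact_mod_cast hηh
  have hd1 : (h : ℝ) / p = η := by rw [hh', mul_div_cancel_left₀ _ (by linarith)]
  have hd2 : (h : ℝ) / η = p := by rw [hh', mul_div_cancel_right₀ _ (by linarith)]
  have h2 : (h : ℝ) ≤ D * l * ((1 + Real.log Z / g) * L) := by
    have k1 := mul_le_mul hp2 hη2 (by linarith) (by linarith)
    rw [hh', hD]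
    linarith
  have g1 : 2 ≤ (1 - θ) * G := (div_le_iff₀' hθ').mp (by linarith)
  have sx := fun i => Gp.side (G := G) (h := h) hθ px.1 (px.2.1 i).1 (px.2.1 i).2 hc
    (by linarith [hdiv _ (hxX.trans hXZ)]) g1 (by linarith) (by linarith)
  have sz := fun i => Gp.side (G := G) (h := h) hθ hz (pz i).1 (pz i).2 hc
    (by linarith) g1 (by linarith) (by linarith)
  obtain ⟨ρA, sA⟩ := Gp2.ratio (l := l) (h := h) (G := G) hA hC hl1 (hel ▸ hP.2.1)
    (hel ▸ (by linarith [hP.2.2])) (by linarith) (by linarith)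
  have hU' : (0 : ℝ) < U := by exact_mod_cast hU
  have hV' : (0 : ℝ) < V := by exact_mod_cast hV
  have hG0 : 1 ≤ G := by
    have : (1 : ℝ) ≤ G := by linarith
    exact_mod_cast this
  have hexp : (g : ℝ) ≤ Real.exp G := hP.1.trans (hel ▸ Real.exp_le_exp.mpr (by linarith))
  have hlt : ∀ m : ℕ, m < g → (m : ℝ) ≤ Real.exp G := fun m hm =>
    le_trans (by exact_mod_cast hm.le) hexp
  have hmod : ∀ m : ℕ, ((m % g : ℕ) : ℝ) ≤ Real.exp G := fun m => hlt _ (Nat.mod_lt m (by omega))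
  let α : Option (Fin (R + R + 1)) → ℝ := fun o => o.elim ((U : ℝ) / V)
    (Fin.cons ((A : ℝ) / C) (Fin.addCases (fun i => (v i : ℝ) / x) fun i => (w i : ℝ) / z))
  let ρ : Option (Fin (R + R + 1)) → ℕ := fun o => o.elim η (Fin.cons ρA
    (Fin.addCases (fun _ => ⌊(h : ℝ) / (cM + Real.log x)⌋₊) fun _ => ⌊(h : ℝ) / (cM + Real.log z)⌋₊))
  let b : Option (Fin (R + R + 1)) → ℤ := fun o => o.elim (g : ℤ) (Fin.cons 1
    (Fin.addCases (fun i => ((a i % g : ℕ) : ℤ)) fun i => -((c i % g : ℕ) : ℤ)))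
  have hsome : ∀ q : Fin (R + R + 1) → Prop, q 0 → (∀ i, q (Fin.castAdd R i).succ) →
      (∀ i, q (Fin.natAdd R i).succ) → ∀ o, q o := fun q k0 k1 k2 o =>
    Fin.cases k0 (fun i => Fin.addCases (motive := fun i => q i.succ) k1 k2 i) o
  have hall : ∀ q : Option (Fin (R + R + 1)) → Prop, q none → q (some 0) →
      (∀ i, q (some (Fin.castAdd R i).succ)) →
      (∀ i, q (some (Fin.natAdd R i).succ)) → ∀ o, q o := by
    intro q h0 k0 k1 k2 o
    cases o with
    | none => exact h0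
    | some i => exact hsome (fun i => q (some i)) k0 k1 k2 i
  have hyp : Hyp2 G h p (z : ℝ) (-(n : ℤ)) α ρ b := by
    refine ⟨⟨z, 1, hz, one_pos, ?_, ?_, by simp⟩, hall _ ?_ ?_ ?_ ?_, ⟨hp1', hph⟩,
      hall _ ?_ ?_ ?_ ?_, ?_, hsome _ ?_ ?_ ?_, by omega, ?_, hall _ ?_ ?_ ?_ ?_⟩
    · refine (Real.log_le_iff_le_exp (by linarith)).mp ?_
      linarith
    · rw [hd1, Nat.cast_one]
      exact Real.one_le_exp (by linarith)
    · refine ⟨U, V, hU, hV, ?_, ?_, rfl⟩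
      · refine (Real.log_le_iff_le_exp hU').mp ?_
        have := hdiv _ (hUX.trans hXZ)
        simp only [ρ, Option.elim]
        linarith
      · refine (Real.log_le_iff_le_exp hV').mp ?_
        have := hdiv (Real.log V) (by linarith)
        simp only [ρ, Option.elim]
        linarith
    · simpa only [α, ρ, Option.elim, Fin.cons_zero] using sA.1
    · intro i
      simpa only [α, ρ, Option.elim, Fin.cons_succ, Fin.addCases_left] using (sx i).1
    · intro i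
      simpa only [α, ρ, Option.elim, Fin.cons_succ, Fin.addCases_right] using (sz i).1
    · exact ⟨hη0', hηh⟩
    · simpa only [ρ, Option.elim, Fin.cons_zero] using sA.2.1
    · intro i
      simpa only [ρ, Option.elim, Fin.cons_succ, Fin.addCases_left] using (sx i).2.1
    · intro i
      simpa only [ρ, Option.elim, Fin.cons_succ, Fin.addCases_right] using (sz i).2.1
    · simp only [ρ, Option.elim]
      rw [← hh]
      exact Nat.le_mul_of_pos_left h hG0
    · simpa only [α, ρ, Option.elim, Fin.cons_zero] using sA.2.2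
    · intro i
      simpa only [α, ρ, Option.elim, Fin.cons_succ, Fin.addCases_left] using (sx i).2.2
    · intro i
      simpa only [α, ρ, Option.elim, Fin.cons_succ, Fin.addCases_right] using (sz i).2.2
    · simp only [Int.cast_neg, Int.cast_natCast, abs_neg, Nat.abs_cast]
      exact hlt n hn
    · simp only [b, Option.elim, Int.cast_natCast, Nat.abs_cast]
      exact hexp
    · simp only [b, Option.elim, Fin.cons_zero, Int.cast_one, abs_one]
      linarith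
    · intro i
      simpa only [b, Option.elim, Fin.cons_succ, Fin.addCases_left, Int.cast_natCast,
        Nat.abs_cast] using hmod (a i)
    · intro i
      simpa only [b, Option.elim, Fin.cons_succ, Fin.addCases_right, Int.cast_neg,
        Int.cast_natCast, abs_neg, Nat.abs_cast] using hmod (c i)
  have hL : Lam2 (z : ℝ) (-(n : ℤ)) α b = Real.log ((A : ℝ) * X / (C * Z)) := by
    rw [Real.log_div (by positivity) hCZ.ne', Real.log_mul (by positivity) (by positivity),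
      Real.log_mul (by positivity) (by positivity), eX, eZ]
    simp only [Lam2, Fintype.sum_option, Fin.sum_univ_succ, Fin.sum_univ_add, α, b, Option.elim,
      Fin.cons_zero, Fin.cons_succ, Fin.addCases_left, Fin.addCases_right, Int.cast_natCast,
      Int.cast_neg, Int.cast_one, neg_mul, sum_neg_distrib]
    rw [Real.log_div hU'.ne' hV'.ne', Real.log_div (by positivity : (A : ℝ) ≠ 0)
      (by positivity : (C : ℝ) ≠ 0)]
    ring
  have hL0 : Lam2 (z : ℝ) (-(n : ℤ)) α b ≠ 0 := by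
    rw [hL]
    refine Real.log_ne_zero_of_pos_of_ne_one (by positivity) fun k => hne ?_
    exact_mod_cast (div_eq_one_iff_eq hCZ.ne').mp k
  have heG : e ≤ G := by
    have : (e : ℝ) ≤ G := by linarith
    exact_mod_cast this
  have key := he G h p _ _ α ρ b heG hyp hL0
  have e1 : |(A : ℝ) * X / (C * Z) - 1| = |(A : ℝ) * X - C * Z| / (C * Z) := by
    rw [div_sub_one hCZ.ne', abs_div, abs_of_pos hCZ]
  have k1 := Gp.abs_log_le (t := (A : ℝ) * X / (C * Z)) (by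
    rw [e1, div_le_iff₀ hCZ]
    linarith)
  rw [← hL, e1] at k1
  have k2 : Real.exp (-(h * (G : ℝ) ^ e)) * (C * Z) ≤ 2 * |(A : ℝ) * X - C * Z| := by
    rw [← le_div_iff₀ hCZ, mul_div_assoc]
    exact key.le.trans k1
  have k3 : Real.exp (-(κ * l ^ κ * (1 + Real.log Z / g) * L)) ≤
      Real.exp (-1) * Real.exp (-(h * (G : ℝ) ^ e)) := by
    rw [← Real.exp_add]
    refine Real.exp_le_exp.mpr ?_
    have m1 := mul_le_mul_of_nonneg_right h2 hGe
    linarith
  have k4 := Real.exp_neg_one_lt_d9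
  have k5 := Real.exp_pos (-(h * (G : ℝ) ^ e))
  have k6 : Real.exp (-1) * Real.exp (-(h * (G : ℝ) ^ e)) ≤ 1 / 2 * Real.exp (-(h * (G : ℝ) ^ e)) :=
    mul_le_mul_of_nonneg_right (by linarith) k5.le
  have k7 := mul_le_mul_of_nonneg_left (k3.trans k6) (by linarith : (0 : ℝ) ≤ Z)
  have k8 := mul_le_mul_of_nonneg_left (mul_le_mul_of_nonneg_right hC' (by linarith : (0 : ℝ) ≤ Z))
    k5.le
  linarith

end Pool.Agent.Lib.MP_4ffbf9_nt.B2
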