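import Pool.Agent.Lib.MP_4ffbf9_nt.B2.Defs

/-! Merging the two far logarithms. -/

set_option autoImplicit false

namespace Pool.Agent.Lib.MP_4ffbf9_nt.B2

open Finset B

namespace Merge

theorem split {b₀ b₁ d₀ d₁ : ℤ} (hb : b₀ ≠ 0) (hd : d₀ ≠ 0 ∨ d₁ ≠ 0) (e : b₀ * d₁ = b₁ * d₀) :
    ∃ g p₀ p₁ : ℤ, g ≠ 0 ∧ b₀ = g * p₀ ∧ b₁ = g * p₁ ∧ |p₀| ≤ |d₀| ∧ |p₁| ≤ |d₁| ∧ |g| ≤ |b₀| := by
  have h0 : d₀ ≠ 0 := by
    rintro rfl
    rcases hd with hd | hd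
    · exact hd rfl
    · rw [mul_zero] at e
      exact mul_ne_zero hb hd e
  have hg : 0 < Int.gcd d₀ d₁ := Int.gcd_pos_of_ne_zero_left _ h0
  obtain ⟨p₀, p₁, hc, e₀, e₁⟩ := Int.exists_gcd_one hg
  obtain ⟨k, hk⟩ : ∃ k : ℤ, k = (Int.gcd d₀ d₁ : ℤ) := ⟨_, rfl⟩
  rw [← hk] at e₀ e₁
  have k1 : 1 ≤ k := by rw [hk]; exact_mod_cast hg
  have p0 : p₀ ≠ 0 := by
    rintro rfl
    exact h0 (by rw [e₀, zero_mul])
  have e2 : b₀ * p₁ = b₁ * p₀ := by
    apply mul_right_cancel₀ (show k ≠ 0 by omega)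
    rw [e₀, e₁] at e
    linear_combination e
  have hd : p₀ ∣ b₀ := by
    refine Int.dvd_of_dvd_mul_left_of_gcd_one (c := p₁) ?_ hc
    rw [e2]
    exact Dvd.intro_left _ rfl
  obtain ⟨g, hg⟩ := hd
  have g0 : g ≠ 0 := by
    rintro rfl
    exact hb (by rw [hg, mul_zero])
  have key : ∀ x y : ℤ, y ≠ 0 → |x| ≤ |x * y| := fun x y hy => by
    rw [abs_mul]
    exact le_mul_of_one_le_right (abs_nonneg _) (Int.one_le_abs hy)
  refine ⟨g, p₀, p₁, g0, by rw [hg, mul_comm], ?_, ?_, ?_, ?_⟩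
  · apply mul_right_cancel₀ p0
    rw [← e2, hg]
    ring
  · rw [e₀]
    exact key _ _ (by omega)
  · rw [e₁]
    exact key _ _ (by omega)
  · rw [hg, mul_comm]
    exact key _ _ p0

theorem big {G a : ℕ} (hG : a + 1 ≤ G) :
    (((G ^ (a + 2)) ^ a : ℕ) : ℝ) * Real.exp G ≤ Real.exp ((G ^ (a + 2) : ℕ) : ℝ) := by
  have a1 : (G : ℝ) ≤ Real.exp G := by linarith [Real.add_one_le_exp (G : ℝ)]
  have a2 : (((G ^ (a + 2)) ^ a : ℕ) : ℝ) ≤ Real.exp (((a + 2) * a : ℕ) * G) := by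
    rw [Real.exp_nat_mul, ← pow_mul, Nat.cast_pow]
    exact pow_le_pow_left₀ (Nat.cast_nonneg _) a1 _
  have a3 : (a + 1) ^ 2 ≤ G ^ (a + 1) := by
    rcases Nat.eq_zero_or_pos a with rfl | ha
    · simpa using hG
    · exact (Nat.pow_le_pow_left hG 2).trans (Nat.pow_le_pow_right (by omega) (by omega))
  have a4 : (a + 2) * a * G + G ≤ G ^ (a + 2) := by
    have := Nat.mul_le_mul_right G a3
    rw [← pow_succ] at this
    refine le_trans (le_of_eq ?_) this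
    ring
  refine (mul_le_mul_of_nonneg_right a2 (Real.exp_pos _).le).trans ?_
  rw [← Real.exp_add, Real.exp_le_exp]
  exact_mod_cast a4

variable {r G h ρ₀ : ℕ} {α₀ : ℝ} {b₀ : ℤ} {α : Option (Fin r) → ℝ} {ρ : Option (Fin r) → ℕ}
  {b : Option (Fin r) → ℤ}

theorem lam_eq (H : Hyp2 G h ρ₀ α₀ b₀ α ρ b) {g p₀ p₁ : ℤ} (N : ℤ) (e₀ : b₀ = g * p₀)
    (e₁ : b none = g * p₁) :
    Lam2 1 1 (fun i => i.elim (α₀ ^ p₀ * α none ^ p₁) fun j => α (some j))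
      (fun i => i.elim (N * g) fun j => N * b (some j)) = N * Lam2 α₀ b₀ α b := by
  have h0 := H.h0.pos
  have h1 := (H.hi none).pos
  simp only [Lam2, Fintype.sum_option, Option.elim, Real.log_one, mul_zero, zero_add]
  rw [Real.log_mul (zpow_pos h0 _).ne' (zpow_pos h1 _).ne', Real.log_zpow, Real.log_zpow, e₀, e₁,
    mul_add, mul_add, mul_add, mul_sum]
  push_cast
  simp only [mul_assoc, add_assoc]

theorem hyp (H : Hyp2 G h ρ₀ α₀ b₀ α ρ b) {a : ℕ} (hG : 2 ≤ G) (ha : a + 1 ≤ G) {g p₀ p₁ : ℤ}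
    (c₀ : |p₀| ≤ G ^ a * ρ₀) (c₁ : |p₁| ≤ G ^ a * ρ none) (cg : |g| ≤ |b₀|) :
    Hyp2 (G ^ (a + 2)) (G ^ (a + 1) * h) (G ^ (a + 1) * h) 1 1
      (fun i => i.elim (α₀ ^ p₀ * α none ^ p₁) fun j => α (some j))
      (fun i => i.elim 1 fun j => ρ (some j))
      (fun i => i.elim ((((G ^ (a + 2)) ^ a : ℕ) : ℤ) * g)
        fun j => (((G ^ (a + 2)) ^ a : ℕ) : ℤ) * b (some j)) := by
  have hG0 : 0 < G := by omega
  have h1 : 1 ≤ h := H.rho0.1.trans H.rho0.2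
  have h2 : h ≤ G ^ (a + 1) * h := Nat.le_mul_of_pos_left _ (pow_pos hG0 _)
  have g2 : (2 : ℝ) ≤ G := by exact_mod_cast hG
  have hh : (0 : ℝ) ≤ h := Nat.cast_nonneg h
  have r0 : ∀ i, (0 : ℝ) < ρ i := fun i => by exact_mod_cast (H.rho i).1
  have r1 : (0 : ℝ) < ρ₀ := by exact_mod_cast H.rho0.1
  have hb : ∀ x : ℤ, (|x| : ℝ) ≤ Real.exp G →
      (|(((((G ^ (a + 2)) ^ a : ℕ) : ℤ) * x : ℤ) : ℝ)|) ≤ Real.exp ((G ^ (a + 2) : ℕ) : ℝ) :=
    fun x hx => by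
      rw [Int.cast_mul, abs_mul, Int.cast_natCast, Nat.abs_cast]
      exact (mul_le_mul_of_nonneg_left hx (Nat.cast_nonneg _)).trans (big ha)
  refine ⟨Ht.one.mono (by positivity), fun i => ?_, ⟨h1.trans h2, le_rfl⟩, fun i => ?_, ?_,
    fun i => ?_, one_ne_zero, ?_, fun i => ?_⟩
  · cases i with
    | none =>
      refine ((H.h0.zpow p₀).mul ((H.hi none).zpow p₁)).mono ?_
      have key : ∀ (p : ℤ) (t : ℕ), (0 : ℝ) < t → |p| ≤ G ^ a * t →
          |(p : ℝ)| * (h / t) ≤ G ^ a * h := fun p t ht hp => by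
        have a1 : |(p : ℝ)| ≤ G ^ a * t := by exact_mod_cast hp
        refine (mul_le_mul_of_nonneg_right a1 (by positivity)).trans (le_of_eq ?_)
        field_simp
      have a1 := key _ _ r1 c₀
      have a2 := key _ _ (r0 none) c₁
      have a3 : (0 : ℝ) ≤ G ^ a * h := by positivity
      have a4 := mul_le_mul_of_nonneg_left g2 a3
      simp only [Option.elim, Nat.cast_one, div_one]
      push_cast
      rw [pow_succ]
      linarith
    | some j =>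
      refine (H.hi (some j)).mono ?_
      exact div_le_div_of_nonneg_right (by exact_mod_cast h2) (r0 _).le
  · cases i with
    | none => exact ⟨le_rfl, h1.trans h2⟩
    | some j => exact ⟨(H.rho _).1, (H.rho _).2.trans h2⟩
  · simp only [Option.elim, mul_one]
    exact Nat.le_mul_of_pos_left _ (pow_pos hG0 _)
  · simp only [Option.elim]
    have e : ((G ^ (a + 1) * h : ℕ) : ℝ) / (ρ (some i) * ((G ^ (a + 2) : ℕ) : ℝ)) =
        h / (ρ (some i) * G) := by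
      have := r0 (some i)
      push_cast
      field_simp
      ring
    rw [e]
    refine (H.cheap i).trans (mul_le_mul_of_nonneg_right ?_ (Real.exp_pos _).le)
    exact_mod_cast Nat.le_self_pow (by omega) G
  · rw [Int.cast_one, abs_one]
    exact Real.one_le_exp (Nat.cast_nonneg _)
  · cases i with
    | none => exact hb g (le_trans (by exact_mod_cast cg) H.b0le)
    | some j => exact hb _ (H.ble _)

end Merge

theorem stMerge (hC : StCore2) : StMerge := by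
  intro r hR
  obtain ⟨a, H⟩ := hC r
  obtain ⟨e, R⟩ := hR a
  obtain ⟨m, hm⟩ : ∃ m, m = a + 2 + (a + 2) * (a + e) := ⟨_, rfl⟩
  have m1 : a + e + 2 ≤ m := by
    have : 1 * (a + e) ≤ (a + 2) * (a + e) := Nat.mul_le_mul_right _ (by omega)
    omega
  refine ⟨m + 1, fun G h ρ₀ α₀ b₀ α ρ b h1 h2 h4 => ?_⟩
  by_contra h5
  have h6 := not_lt.1 h5
  have hG : 2 ≤ G := by omega
  have g1 : (1 : ℝ) ≤ G := by exact_mod_cast (by omega : 1 ≤ G)
  have g2 : (2 : ℝ) ≤ G := by exact_mod_cast hG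
  have hh : (1 : ℝ) ≤ h := by exact_mod_cast h2.rho0.1.trans h2.rho0.2
  have mo : ∀ c, c ≤ m + 1 → |Lam2 α₀ b₀ α b| ≤ Real.exp (-(h * G ^ c)) := fun c hc =>
    h6.trans (Real.exp_le_exp.2 (neg_le_neg (mul_le_mul_of_nonneg_left
      (pow_le_pow_right₀ g1 hc) (by linarith))))
  rcases H G h ρ₀ α₀ b₀ α ρ b (by omega) h2 h4 (mo a (by omega)) with ⟨d₀, d₁, a1, a2, a3, a4⟩ | hr
  swap
  · exact absurd (R G h ρ₀ α₀ b₀ α ρ b (by omega) h2 h4 hr) (not_lt.2 (mo e (by omega)))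
  obtain ⟨g, p₀, p₁, g0, e₀, e₁, c₀, c₁, cg⟩ := Merge.split h2.b0 a1 a4
  have H' := Merge.hyp h2 hG (show a + 1 ≤ G by omega) (c₀.trans a2.le) (c₁.trans a3.le) cg
  have hL := Merge.lam_eq h2 (((G ^ (a + 2)) ^ a : ℕ) : ℤ) e₀ e₁
  have hGG : G ≤ G ^ (a + 2) := Nat.le_self_pow (by omega) G
  have N0 : 0 < (G ^ (a + 2)) ^ a := by positivity
  have hne := hL.symm ▸ mul_ne_zero (show (((((G ^ (a + 2)) ^ a : ℕ) : ℤ)) : ℝ) ≠ 0 by
    exact_mod_cast N0.ne') h4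
  have hN : (((G ^ (a + 2)) ^ a : ℕ) : ℝ) ≤ Real.exp (h * G ^ m) := by
    refine (le_mul_of_one_le_right (Nat.cast_nonneg _)
      (Real.one_le_exp (Nat.cast_nonneg G))).trans ((Merge.big (by omega)).trans ?_)
    rw [Real.exp_le_exp, Nat.cast_pow]
    exact (pow_le_pow_right₀ g1 (by omega)).trans (le_mul_of_one_le_left (by positivity) hh)
  have mo' : ∀ c, c ≤ a + e → |((((G ^ (a + 2)) ^ a : ℕ) : ℤ) : ℝ) * Lam2 α₀ b₀ α b| ≤
      Real.exp (-(((G ^ (a + 1) * h : ℕ) : ℝ) * ((G ^ (a + 2) : ℕ) : ℝ) ^ c)) := fun c hc => by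
    rw [abs_mul, Int.cast_natCast, Nat.abs_cast]
    refine (mul_le_mul hN h6 (abs_nonneg _) (Real.exp_pos _).le).trans ?_
    rw [← Real.exp_add, Real.exp_le_exp]
    have e1 : ((G ^ (a + 1) * h : ℕ) : ℝ) * ((G ^ (a + 2) : ℕ) : ℝ) ^ c =
        h * G ^ (a + 1 + (a + 2) * c) := by
      push_cast
      ring
    have e2 : (G : ℝ) ^ (a + 1 + (a + 2) * c) ≤ G ^ m := by
      refine pow_le_pow_right₀ g1 ?_
      have := Nat.mul_le_mul_left (a + 2) hc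
      omega
    have e3 := mul_le_mul_of_nonneg_left e2 (show (0 : ℝ) ≤ h by linarith)
    have e4 := mul_le_mul_of_nonneg_left g2 (show (0 : ℝ) ≤ h * G ^ m by positivity)
    rw [e1, pow_succ]
    linarith
  rw [← hL] at mo'
  rcases H _ _ _ _ _ _ _ _ (by omega) H' hne (mo' a (by omega)) with ⟨d₀, d₁, b1, -, b3, b4⟩ | hr
  · simp only [Option.elim, Nat.cast_one, mul_one, one_mul] at b3 b4
    have d0 : d₀ ≠ 0 := by
      rintro rfl
      rcases b1 with b1 | b1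
      · exact b1 rfl
      · exact b1 (by rw [b4, mul_zero])
    rw [b4, mul_assoc, abs_mul, Nat.abs_cast, ← Nat.cast_pow] at b3
    have := le_mul_of_one_le_right (Int.natCast_nonneg ((G ^ (a + 2)) ^ a))
      (Int.one_le_abs (mul_ne_zero g0 d0))
    exact absurd b3 (not_lt.2 this)
  · exact absurd (R _ _ _ _ _ _ _ _ (by omega) H' hne hr) (not_lt.2 (mo' e (by omega)))

end Pool.Agent.Lib.MP_4ffbf9_nt.B2
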