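import Pool.Agent.Lib.MP_4ffbf9_nt.B.All
import Pool.Agent.Lib.MP_4ffbf9_nt.B2.Comb
import Pool.Agent.Lib.MP_4ffbf9_nt.B2.Ana
import Pool.Agent.Lib.MP_4ffbf9_nt.B2.Core
import Pool.Agent.Lib.MP_4ffbf9_nt.B2.Elim
import Pool.Agent.Lib.MP_4ffbf9_nt.B2.Merge
import Pool.Agent.Lib.MP_4ffbf9_nt.B2.Gap

/-! Assembly. -/

set_option autoImplicit false

namespace Pool.Agent.Lib.MP_4ffbf9_nt.B2

open B

theorem core2 : StCore2 := stCore2 (stAux2 stDet stLow stEst) stPol (stZE stBez) stComb2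

theorem baker2 (r : ℕ) : Bd r := by
  induction r with
  | zero => exact stMerge core2 0 fun a => ⟨0, fun _ _ _ _ _ _ _ _ _ _ _ ⟨k, _⟩ => k.elim0⟩
  | succ r ih => exact stMerge core2 _ (stElim r ih)

theorem gap2 : StGap2 := stGap2 baker2

end Pool.Agent.Lib.MP_4ffbf9_nt.B2
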