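import Pool.Agent.Lib.MP_4ffbf9_nt.B.Box

/-!
Definitions and statements for the lower bound with two logarithms far from zero.
-/

set_option autoImplicit false

namespace Pool.Agent.Lib.MP_4ffbf9_nt.B2

open Finset B

/-- `α₀` has height `h / ρ₀`, `α i` has height `h / ρ i`, the product of the heights of `α₀` and
`α none` is at most `G h`, the logarithms with index `some i` are small -/
structure Hyp2 {r : ℕ} (G h ρ₀ : ℕ) (α₀ : ℝ) (b₀ : ℤ) (α : Option (Fin r) → ℝ)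
    (ρ : Option (Fin r) → ℕ) (b : Option (Fin r) → ℤ) : Prop where
  h0 : Ht α₀ (h / ρ₀)
  hi : ∀ i, Ht (α i) (h / ρ i)
  rho0 : 1 ≤ ρ₀ ∧ ρ₀ ≤ h
  rho : ∀ i, 1 ≤ ρ i ∧ ρ i ≤ h
  far : h ≤ G * (ρ₀ * ρ none)
  cheap : ∀ i, |Real.log (α (some i))| ≤ G * Real.exp (-(h / (ρ (some i) * G)))
  b0 : b₀ ≠ 0
  b0le : (|b₀| : ℝ) ≤ Real.exp G
  ble : ∀ i, (|b i| : ℝ) ≤ Real.exp G

/-- the linear form -/
noncomputable def Lam2 {r : ℕ} (α₀ : ℝ) (b₀ : ℤ) (α : Option (Fin r) → ℝ)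
    (b : Option (Fin r) → ℤ) : ℝ :=
  b₀ * Real.log α₀ + ∑ i, b i * Real.log (α i)

/-- the points -/
def Grid2 {ι : Type} (b₀ : ℤ) (b : ι → ℤ) (S₀ : ℕ) (S : ι → ℕ) : Set (ι → ℂ) :=
  {x | ∃ (s₀ : ℕ) (s : ι → ℕ), s₀ < S₀ ∧ (∀ i, s i < S i) ∧
    x = fun i => (b₀ : ℂ) * s i - b i * s₀}

/-- few points modulo a proper subspace give a small integral relation -/
def StComb2 : Prop :=
  ∀ (r Q S₀ S₁ : ℕ) (S : Option (Fin r) → ℕ) (b₀ : ℤ) (b : Option (Fin r) → ℤ)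
    (W : Submodule ℂ (Option (Fin r) → ℂ)), W ≠ ⊤ → b₀ ≠ 0 → 1 ≤ Q → Q < S₀ → (∀ i, Q < S i) →
    Q * S₁ < S₀ * S none →
    (∀ J : Finset (Option (Fin r)), Sp W J →
      Few W (Grid2 b₀ b S₀ S) (Q * ∏ j ∈ J, if j = none then S₁ else S j)) →
    (∃ d₀ d₁ : ℤ, (d₀ ≠ 0 ∨ d₁ ≠ 0) ∧ |d₀| < S₀ ∧ |d₁| < S none ∧ b₀ * d₁ = b none * d₀) ∨
    ∃ (k : Fin r) (u₀ : ℤ) (u : Option (Fin r) → ℤ), u (some k) ≠ 0 ∧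
      u₀ * b₀ + ∑ i, u i * b i = 0 ∧ |u₀| * S₀ ≤ 2 * Q ^ (r + 3) * S (some k) ∧
      (∀ i, |u i| * S i ≤ 2 * Q ^ (r + 3) * S (some k)) ∧
      ∀ i, u (some i) ≠ 0 → S (some i) ≤ Q * S (some k) ∧ S (some k) ≤ Q * S (some i)

/-- the vanishing of the auxiliary function on the large grid -/
def Van2 {r : ℕ} (G σ h ρ₀ : ℕ) (α₀ : ℝ) (b₀ : ℤ) (α : Option (Fin r) → ℝ)
    (ρ : Option (Fin r) → ℕ) (b : Option (Fin r) → ℤ)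
    (p : Fin (G ^ 2) × (∀ i, Fin (Tp G σ h ρ i)) → ℝ) : Prop :=
  ∀ (s₀ : ℕ) (s : Option (Fin r) → ℕ), s₀ < (r + 2) * (σ * G * ρ₀) →
    (∀ i, s i < (r + 2) * (σ * G * ρ i)) →
    ∑ m, p m * ((∏ i, bin ((b₀ : ℝ) * s i - b i * s₀) (m.2 i)) *
      (α₀ ^ s₀ * ∏ i, α i ^ s i) ^ (m.1 : ℕ)) = 0

/-- the analytic part -/
def StAux2 : Prop :=
  ∀ r : ℕ, ∃ a : ℕ, ∀ (G σ h ρ₀ : ℕ) (α₀ : ℝ) (b₀ : ℤ) (α : Option (Fin r) → ℝ)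
    (ρ : Option (Fin r) → ℕ) (b : Option (Fin r) → ℤ), a ≤ G → 1 ≤ σ →
    Hyp2 G h ρ₀ α₀ b₀ α ρ b → |Lam2 α₀ b₀ α b| ≤ Real.exp (-(h * (G ^ 4 * σ))) →
    ∃ p, p ≠ 0 ∧ Van2 G σ h ρ₀ α₀ b₀ α ρ b p

/-- a small relation that involves a small logarithm -/
def Rel {r : ℕ} (N ρ₀ : ℕ) (b₀ : ℤ) (ρ : Option (Fin r) → ℕ) (b : Option (Fin r) → ℤ) : Prop :=
  ∃ (k : Fin r) (u₀ : ℤ) (u : Option (Fin r) → ℤ), u (some k) ≠ 0 ∧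
    u₀ * b₀ + ∑ i, u i * b i = 0 ∧ |u₀| * ρ₀ ≤ N * ρ (some k) ∧
    (∀ i, |u i| * ρ i ≤ N * ρ (some k)) ∧
    ∀ i, u (some i) ≠ 0 → ρ (some i) ≤ N * ρ (some k) ∧ ρ (some k) ≤ N * ρ (some i)

/-- a very small linear form gives a small relation between the coefficients -/
def StCore2 : Prop :=
  ∀ r : ℕ, ∃ a : ℕ, ∀ (G h ρ₀ : ℕ) (α₀ : ℝ) (b₀ : ℤ) (α : Option (Fin r) → ℝ)
    (ρ : Option (Fin r) → ℕ) (b : Option (Fin r) → ℤ), a ≤ G → Hyp2 G h ρ₀ α₀ b₀ α ρ b →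
    Lam2 α₀ b₀ α b ≠ 0 → |Lam2 α₀ b₀ α b| ≤ Real.exp (-(h * G ^ a)) →
    (∃ d₀ d₁ : ℤ, (d₀ ≠ 0 ∨ d₁ ≠ 0) ∧ |d₀| < G ^ a * ρ₀ ∧ |d₁| < G ^ a * ρ none ∧
      b₀ * d₁ = b none * d₀) ∨ Rel (G ^ a) ρ₀ b₀ ρ b

/-- the lower bound for the linear form with `r` small logarithms -/
def Bd (r : ℕ) : Prop :=
  ∃ a : ℕ, ∀ (G h ρ₀ : ℕ) (α₀ : ℝ) (b₀ : ℤ) (α : Option (Fin r) → ℝ)
    (ρ : Option (Fin r) → ℕ) (b : Option (Fin r) → ℤ), a ≤ G → Hyp2 G h ρ₀ α₀ b₀ α ρ b →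
    Lam2 α₀ b₀ α b ≠ 0 → Real.exp (-(h * G ^ a)) < |Lam2 α₀ b₀ α b|

/-- the lower bound in the presence of a relation -/
def BdRel (r : ℕ) : Prop :=
  ∀ a : ℕ, ∃ e : ℕ, ∀ (G h ρ₀ : ℕ) (α₀ : ℝ) (b₀ : ℤ) (α : Option (Fin r) → ℝ)
    (ρ : Option (Fin r) → ℕ) (b : Option (Fin r) → ℤ), e ≤ G → Hyp2 G h ρ₀ α₀ b₀ α ρ b →
    Lam2 α₀ b₀ α b ≠ 0 → Rel (G ^ a) ρ₀ b₀ ρ b → Real.exp (-(h * G ^ e)) < |Lam2 α₀ b₀ α b|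

/-- elimination of a small logarithm -/
def StElim : Prop := ∀ r : ℕ, Bd r → BdRel (r + 1)

/-- merging the two far logarithms -/
def StMerge : Prop := ∀ r : ℕ, BdRel r → Bd r

/-- the gap between two products, `g` divides only the first degree -/
def StGap2 : Prop :=
  ∀ (R : ℕ) (M θ : ℝ), θ < 1 → ∃ κ : ℕ, ∀ (A C g x z X Z : ℕ) (v a w c : Fin R → ℕ), 0 < A →
    0 < C → 3 ≤ g → Pr M θ g x v a → 0 < z → (∀ i, z ≤ w i ∧ (w i : ℝ) ≤ z + M * (z : ℝ) ^ θ) →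
    ¬ g ∣ ∑ i, c i → X = ∏ i, v i ^ a i → Z = ∏ i, w i ^ c i → A * X ≠ C * Z →
    Z * Real.exp (-(κ * Real.log (g * A * C) ^ κ * (1 + Real.log Z / g) * Real.log (2 * z))) ≤
      |(A : ℝ) * X - C * Z|

end Pool.Agent.Lib.MP_4ffbf9_nt.B2
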